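import Pool.Agent.HB.Defs

/-!
# HB.T.Dot: bookkeeping lemmas for `dot`, `pr`, `res`, `Lt`

All routine (`Finsupp.sum`, `Finsupp.filter`).  Useful form: `dot γ y = ∑ i ∈ s, γ i * y i` for every finset
`s ⊇ γ.support` (or `⊇ y.support`).
-/

open Finset

namespace Pool.Agent.HB

theorem dot_eq_sum (γ y : RV) (s : Finset ℕ) (h : γ.support ⊆ s) :
    dot γ y = ∑ i ∈ s, γ i * y i := by
  unfold dot
  exact Finsupp.sum_of_support_subset _ h _ (fun i _ => zero_mul _)

theorem dot_eq_sum' (γ y : RV) (s : Finset ℕ) (h : y.support ⊆ s) :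
    dot γ y = ∑ i ∈ s, γ i * y i := by
  classical
  rw [dot_eq_sum γ y (γ.support ∪ s) subset_union_left]
  symm
  refine Finset.sum_subset subset_union_right fun i _ hi => ?_
  have h1 : y i = 0 := by
    by_contra h2
    exact hi (h (Finsupp.mem_support_iff.2 h2))
  rw [h1, mul_zero]

theorem pr_eq_sum (γ y : CV) (s : Finset ℕ) (h : γ.support ⊆ s) :
    pr γ y = ∑ i ∈ s, γ i * y i := by
  unfold pr
  exact Finsupp.sum_of_support_subset _ h _ (fun i _ => zero_mul _)

theorem pr_eq_sum' (γ y : CV) (s : Finset ℕ) (h : y.support ⊆ s) :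
    pr γ y = ∑ i ∈ s, γ i * y i := by
  classical
  rw [pr_eq_sum γ y (γ.support ∪ s) subset_union_left]
  symm
  refine Finset.sum_subset subset_union_right fun i _ hi => ?_
  have h1 : y i = 0 := by
    by_contra h2
    exact hi (h (Finsupp.mem_support_iff.2 h2))
  rw [h1, mul_zero]

theorem dot_comm (γ y : RV) : dot γ y = dot y γ := by
  rw [dot_eq_sum γ y γ.support subset_rfl, dot_eq_sum' y γ γ.support subset_rfl]
  exact Finset.sum_congr rfl fun i _ => mul_comm _ _

theorem dot_add_left (γ δ y : RV) : dot (γ + δ) y = dot γ y + dot δ y := by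
  rw [dot_eq_sum' _ y y.support subset_rfl, dot_eq_sum' _ y y.support subset_rfl,
    dot_eq_sum' _ y y.support subset_rfl, ← Finset.sum_add_distrib]
  exact Finset.sum_congr rfl fun i _ => by rw [Finsupp.add_apply, add_mul]

theorem dot_add_right (γ y z : RV) : dot γ (y + z) = dot γ y + dot γ z := by
  rw [dot_comm, dot_add_left, dot_comm y, dot_comm z]

theorem dot_smul_left (a : ℝ) (γ y : RV) : dot (a • γ) y = a * dot γ y := by
  rw [dot_eq_sum' _ y y.support subset_rfl, dot_eq_sum' _ y y.support subset_rfl, Finset.mul_sum]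
  exact Finset.sum_congr rfl fun i _ => by rw [Finsupp.smul_apply, smul_eq_mul, mul_assoc]

theorem dot_smul_right (a : ℝ) (γ y : RV) : dot γ (a • y) = a * dot γ y := by
  rw [dot_comm, dot_smul_left, dot_comm y]

theorem dot_sum_left {ι : Type} (s : Finset ι) (g : ι → RV) (y : RV) :
    dot (∑ i ∈ s, g i) y = ∑ i ∈ s, dot (g i) y := by
  classical
  induction s using Finset.induction_on with
  | empty => simp [dot]
  | insert i s hi ih => rw [Finset.sum_insert hi, Finset.sum_insert hi, dot_add_left, ih]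

theorem dot_sum_right {ι : Type} (s : Finset ι) (γ : RV) (g : ι → RV) :
    dot γ (∑ i ∈ s, g i) = ∑ i ∈ s, dot γ (g i) := by
  rw [dot_comm, dot_sum_left]
  exact Finset.sum_congr rfl fun i _ => dot_comm _ _

theorem dot_nonneg {γ y : RV} (hγ : 0 ≤ γ) (hy : 0 ≤ y) : 0 ≤ dot γ y := by
  rw [dot_eq_sum γ y γ.support subset_rfl]
  exact Finset.sum_nonneg fun i _ => mul_nonneg (hγ i) (hy i)

theorem dot_mono_right {γ y z : RV} (hγ : 0 ≤ γ) (h : y ≤ z) : dot γ y ≤ dot γ z := by
  rw [dot_eq_sum γ y γ.support subset_rfl, dot_eq_sum γ z γ.support subset_rfl]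
  exact Finset.sum_le_sum fun i _ => mul_le_mul_of_nonneg_left (h i) (hγ i)

theorem dot_zero_left (y : RV) : dot 0 y = 0 := by
  simp [dot]

theorem dot_zero_right (y : RV) : dot y 0 = 0 := by
  simp [dot]

theorem dot_single_left (i : ℕ) (a : ℝ) (y : RV) : dot (Finsupp.single i a) y = a * y i := by
  unfold dot
  exact Finsupp.sum_single_index (zero_mul _)

theorem dot_single_right (i : ℕ) (a : ℝ) (y : RV) : dot y (Finsupp.single i a) = y i * a := by
  rw [dot_comm, dot_single_left, mul_comm]

theorem res_apply {α : Type} [Zero α] (E : Set ℕ) (x : ℕ →₀ α) (i : ℕ) [Decidable (i ∈ E)] :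
    res E x i = if i ∈ E then x i else 0 := by
  classical
  unfold res
  rw [Finsupp.filter_apply]
  split_ifs <;> rfl

theorem res_apply_mem {α : Type} [Zero α] (E : Set ℕ) (x : ℕ →₀ α) {i : ℕ} (h : i ∈ E) :
    res E x i = x i := by
  classical
  rw [res_apply, if_pos h]

theorem res_apply_not_mem {α : Type} [Zero α] (E : Set ℕ) (x : ℕ →₀ α) {i : ℕ} (h : i ∉ E) :
    res E x i = 0 := by
  classical
  rw [res_apply, if_neg h]

theorem res_support {α : Type} [Zero α] (E : Set ℕ) (x : ℕ →₀ α) {i : ℕ} :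
    i ∈ (res E x).support ↔ i ∈ E ∧ i ∈ x.support := by
  classical
  rw [Finsupp.mem_support_iff, Finsupp.mem_support_iff, res_apply]
  by_cases h : i ∈ E
  · rw [if_pos h]
    exact ⟨fun h1 => ⟨h, h1⟩, fun h1 => h1.2⟩
  · rw [if_neg h]
    exact ⟨fun h1 => absurd rfl h1, fun h1 => absurd h1.1 h⟩

theorem res_res {α : Type} [Zero α] (E E' : Set ℕ) (x : ℕ →₀ α) :
    res E (res E' x) = res (E ∩ E') x := by
  classical
  ext i
  rw [res_apply, res_apply, res_apply]
  by_cases h : i ∈ E <;> by_cases h' : i ∈ E' <;> simp [h, h']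

theorem res_add {α : Type} [AddZeroClass α] (E : Set ℕ) (x y : ℕ →₀ α) :
    res E (x + y) = res E x + res E y := by
  classical
  ext i
  rw [Finsupp.add_apply, res_apply, res_apply, res_apply, Finsupp.add_apply]
  split_ifs
  · rfl
  · rw [add_zero]

theorem res_sum {α ι : Type} [AddCommMonoid α] (E : Set ℕ) (s : Finset ι) (x : ι → ℕ →₀ α) :
    res E (∑ i ∈ s, x i) = ∑ i ∈ s, res E (x i) := by
  classical
  induction s using Finset.induction_on with
  | empty =>
    rw [Finset.sum_empty, Finset.sum_empty]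
    ext i
    rw [res_apply]
    split_ifs <;> rfl
  | insert i s hi ih => rw [Finset.sum_insert hi, Finset.sum_insert hi, res_add, ih]

theorem res_smul_real (E : Set ℕ) (a : ℝ) (x : RV) : res E (a • x) = a • res E x := by
  classical
  ext i
  rw [Finsupp.smul_apply, res_apply, res_apply, Finsupp.smul_apply]
  split_ifs
  · rfl
  · rw [smul_zero]

theorem res_smul (E : Set ℕ) (a : ℂ) (x : CV) : res E (a • x) = a • res E x := by
  classical
  ext i
  rw [Finsupp.smul_apply, res_apply, res_apply, Finsupp.smul_apply]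
  split_ifs
  · rfl
  · rw [smul_zero]

theorem res_smul_rc (E : Set ℕ) (a : ℝ) (x : CV) : res E (a • x) = a • res E x := by
  classical
  ext i
  rw [Finsupp.smul_apply, res_apply, res_apply, Finsupp.smul_apply]
  split_ifs
  · rfl
  · rw [smul_zero]

theorem res_zero {α : Type} [Zero α] (E : Set ℕ) : res E (0 : ℕ →₀ α) = 0 := by
  classical
  ext i
  rw [res_apply]
  split_ifs <;> rfl

theorem res_univ {α : Type} [Zero α] (x : ℕ →₀ α) : res Set.univ x = x := by
  classical
  ext i
  rw [res_apply, if_pos (Set.mem_univ i)]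

/-- `res E x = x` if the support is contained in `E`. -/
theorem res_eq_self {α : Type} [Zero α] (E : Set ℕ) (x : ℕ →₀ α) (h : ∀ i ∈ x.support, i ∈ E) :
    res E x = x := by
  classical
  ext i
  rw [res_apply]
  split_ifs with h1
  · rfl
  · by_contra h2
    exact h1 (h i (Finsupp.mem_support_iff.2 fun h3 => h2 h3.symm))

theorem res_eq_zero {α : Type} [Zero α] (E : Set ℕ) (x : ℕ →₀ α) (h : ∀ i ∈ x.support, i ∉ E) :
    res E x = 0 := by
  classical
  ext i
  rw [res_apply]
  split_ifs with h1
  · by_contra h2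
    exact h i (Finsupp.mem_support_iff.2 h2) h1
  · rfl

theorem res_Iio_add_Ici {α : Type} [AddZeroClass α] (n : ℕ) (x : ℕ →₀ α) :
    res (Set.Iio n) x + res (Set.Ici n) x = x := by
  classical
  ext i
  rw [Finsupp.add_apply, res_apply, res_apply]
  by_cases h : i < n
  · rw [if_pos (Set.mem_Iio.2 h), if_neg (fun h1 => absurd (Set.mem_Ici.1 h1) (not_le.2 h)), add_zero]
  · rw [if_neg (fun h1 => h (Set.mem_Iio.1 h1)), if_pos (Set.mem_Ici.2 (not_lt.1 h)), zero_add]

theorem res_nonneg (E : Set ℕ) {x : RV} (h : 0 ≤ x) : 0 ≤ res E x := by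
  classical
  intro i
  rw [res_apply]
  split_ifs
  · exact h i
  · exact le_rfl

theorem res_le (E : Set ℕ) {x : RV} (h : 0 ≤ x) : res E x ≤ x := by
  classical
  intro i
  rw [res_apply]
  split_ifs
  · exact le_rfl
  · exact h i

theorem dot_res_left (E : Set ℕ) (γ y : RV) : dot (res E γ) y = dot γ (res E y) := by
  classical
  rw [dot_eq_sum' _ y y.support subset_rfl, dot_eq_sum' γ (res E y) y.support
    (fun i hi => ((res_support E y).1 hi).2)]
  refine Finset.sum_congr rfl fun i _ => ?_
  rw [res_apply, res_apply]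
  split_ifs
  · rfl
  · rw [zero_mul, mul_zero]

theorem dot_res_both (E : Set ℕ) (γ y : RV) : dot (res E γ) (res E y) = dot γ (res E y) := by
  rw [dot_res_left, res_res, Set.inter_self]

/-- if `γ` is supported in `E` then only `res E y` matters -/
theorem dot_eq_res (E : Set ℕ) (γ y : RV) (h : ∀ i ∈ γ.support, i ∈ E) :
    dot γ y = dot γ (res E y) := by
  rw [← dot_res_left, res_eq_self E γ h]

theorem pr_add_left (g h x : CV) : pr (g + h) x = pr g x + pr h x := by
  rw [pr_eq_sum' _ x x.support subset_rfl, pr_eq_sum' _ x x.support subset_rfl,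
    pr_eq_sum' _ x x.support subset_rfl, ← Finset.sum_add_distrib]
  exact Finset.sum_congr rfl fun i _ => by rw [Finsupp.add_apply, add_mul]

theorem pr_add_right (g x y : CV) : pr g (x + y) = pr g x + pr g y := by
  rw [pr_eq_sum g _ g.support subset_rfl, pr_eq_sum g _ g.support subset_rfl,
    pr_eq_sum g _ g.support subset_rfl, ← Finset.sum_add_distrib]
  exact Finset.sum_congr rfl fun i _ => by rw [Finsupp.add_apply, mul_add]

theorem pr_smul_left (a : ℂ) (g x : CV) : pr (a • g) x = a * pr g x := by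
  rw [pr_eq_sum' _ x x.support subset_rfl, pr_eq_sum' _ x x.support subset_rfl, Finset.mul_sum]
  exact Finset.sum_congr rfl fun i _ => by rw [Finsupp.smul_apply, smul_eq_mul, mul_assoc]

theorem pr_smul_right (a : ℂ) (g x : CV) : pr g (a • x) = a * pr g x := by
  rw [pr_eq_sum g _ g.support subset_rfl, pr_eq_sum g _ g.support subset_rfl, Finset.mul_sum]
  exact Finset.sum_congr rfl fun i _ => by rw [Finsupp.smul_apply, smul_eq_mul]; ring

theorem pr_sum_left {ι : Type} (s : Finset ι) (g : ι → CV) (y : CV) :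
    pr (∑ i ∈ s, g i) y = ∑ i ∈ s, pr (g i) y := by
  classical
  induction s using Finset.induction_on with
  | empty => simp [pr]
  | insert i s hi ih => rw [Finset.sum_insert hi, Finset.sum_insert hi, pr_add_left, ih]

theorem pr_sum_right {ι : Type} (s : Finset ι) (γ : CV) (g : ι → CV) :
    pr γ (∑ i ∈ s, g i) = ∑ i ∈ s, pr γ (g i) := by
  classical
  induction s using Finset.induction_on with
  | empty => simp [pr]
  | insert i s hi ih => rw [Finset.sum_insert hi, Finset.sum_insert hi, pr_add_right, ih]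

theorem pr_res_left (E : Set ℕ) (g x : CV) : pr (res E g) x = pr g (res E x) := by
  classical
  rw [pr_eq_sum' _ x x.support subset_rfl, pr_eq_sum' g (res E x) x.support
    (fun i hi => ((res_support E x).1 hi).2)]
  refine Finset.sum_congr rfl fun i _ => ?_
  rw [res_apply, res_apply]
  split_ifs
  · rfl
  · rw [zero_mul, mul_zero]

theorem pr_eq_res (E : Set ℕ) (g x : CV) (h : ∀ i ∈ g.support, i ∈ E) :
    pr g x = pr g (res E x) := by
  rw [← pr_res_left, res_eq_self E g h]

theorem pr_eq_zero (g x : CV) (h : ∀ i ∈ g.support, i ∉ x.support) : pr g x = 0 := by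
  rw [pr_eq_sum g x g.support subset_rfl]
  refine Finset.sum_eq_zero fun i hi => ?_
  rw [Finsupp.notMem_support_iff.1 (h i hi), mul_zero]

theorem ev_add (τ : ℂ) (F G : Pol) : ev τ (F + G) = ev τ F + ev τ G := by
  ext i
  simp [ev]

theorem ev_sum {ι : Type} (τ : ℂ) (s : Finset ι) (F : ι → Pol) :
    ev τ (∑ i ∈ s, F i) = ∑ i ∈ s, ev τ (F i) := by
  classical
  induction s using Finset.induction_on with
  | empty =>
    ext i
    simp [ev]
  | insert i s hi ih => rw [Finset.sum_insert hi, Finset.sum_insert hi, ev_add, ih]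

/-- multiplication by a scalar polynomial -/
theorem ev_smul (τ : ℂ) (q : Polynomial ℂ) (F : Pol) : ev τ (q • F) = q.eval τ • ev τ F := by
  ext i
  simp [ev]

theorem ev_apply (τ : ℂ) (F : Pol) (i : ℕ) : ev τ F i = (F i).eval τ := by
  rfl

theorem ev_res (τ : ℂ) (E : Set ℕ) (F : Pol) : ev τ (res E F) = res E (ev τ F) := by
  classical
  ext i
  rw [ev_apply, res_apply, res_apply, ev_apply]
  split_ifs
  · rfl
  · exact Polynomial.eval_zero

theorem ev_support (τ : ℂ) (F : Pol) : (ev τ F).support ⊆ F.support := by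
  intro i hi
  rw [Finsupp.mem_support_iff] at hi ⊢
  intro h
  apply hi
  rw [ev_apply, h, Polynomial.eval_zero]

end Pool.Agent.HB
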