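import Pool.Agent.HB.T.Dot

/-!
# HB.T.Split: successive functionals against successive vectors

PROOF.  Let `met i l` mean that the supports of `g i` and `w l` intersect (`i < P`).  `l ∈ I` is *split* if it meets
`g i` for at least two indices `i < P`; `B` = set of split `l`; `J i` = set of `l ∈ I \ B` that meet `g i`.
* The `J i` are pairwise disjoint since an unsplit `l` meets at most one `g i`.
* `B.card ≤ P`: map a split `l` to the smallest `i < P` with `met i l`; injective: if `l < l'` are both mapped to `i`,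
  then `l` meets `g i'` with some `i' > i`; take `q ∈ supp (w l) ∩ supp (g i')`, `r ∈ supp (w l') ∩ supp (g i)`:
  `q < r` (as `w l < w l'`) and `r < q` (as `g i < g i'`), a contradiction.
* the identity: `∑_{i<P} ∑_{l∈I} dot (g i) (w l)`, split `I = (I \ B) ∪ B`; for `l ∈ I \ B`, `dot (g i) (w l) = 0` unless
  `l ∈ J i`.
-/

open Finset

namespace Pool.Agent.HB

private theorem dot_zero_of {γ y : RV} (h : ∀ q, q ∈ γ.support → q ∉ y.support) : dot γ y = 0 := by
  rw [dot_eq_sum γ y γ.support subset_rfl]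
  refine sum_eq_zero fun q hq => ?_
  rw [Finsupp.notMem_support_iff.1 (h q hq), mul_zero]

theorem split_lemma (P : ℕ) (g : ℕ → RV) (hg : ∀ i j, i < j → Lt (g i) (g j))
    (I : Finset ℕ) (w : ℕ → RV) (hw : ∀ l ∈ I, ∀ l' ∈ I, l < l' → Lt (w l) (w l')) :
    ∃ (J : ℕ → Finset ℕ) (B : Finset ℕ), B ⊆ I ∧ B.card ≤ P ∧ (∀ i, J i ⊆ I \ B) ∧
      (∀ i j, i ≠ j → Disjoint (J i) (J j)) ∧
      ∑ i ∈ range P, dot (g i) (∑ l ∈ I, w l) =
        ∑ i ∈ range P, dot (g i) (∑ l ∈ J i, w l) + ∑ l ∈ B, ∑ i ∈ range P, dot (g i) (w l) := by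
  classical
  set met : ℕ → ℕ → Prop := fun i l => ∃ q, q ∈ (g i).support ∧ q ∈ (w l).support with hmet
  set S : ℕ → Finset ℕ := fun l => (range P).filter fun i => met i l with hS
  set B : Finset ℕ := I.filter fun l => 1 < (S l).card with hB
  set J : ℕ → Finset ℕ := fun i => if i < P then (I \ B).filter (fun l => met i l) else ∅ with hJ
  have hBI : B ⊆ I := filter_subset _ _
  have hSne : ∀ l ∈ B, (S l).Nonempty := by
    intro l hl
    have h1 := (mem_filter.1 hl).2
    exact card_pos.1 (by omega)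
  refine ⟨J, B, hBI, ?_, ?_, ?_, ?_⟩
  · -- few split indices
    have hc : B.card ≤ (range P).card := by
      refine card_le_card_of_injOn (fun l => if h : (S l).Nonempty then (S l).min' h else 0) ?_ ?_
      · intro l hl
        have h1 := hSne l hl
        simp only [dif_pos h1]
        exact filter_subset _ _ (min'_mem (S l) h1)
      · have key : ∀ l ∈ B, ∀ l' ∈ B, l < l' → ∀ h : (S l).Nonempty, ∀ h' : (S l').Nonempty,
            (S l).min' h ≠ (S l').min' h' := by
          intro l hl l' hl' hll h h' heq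
          set i := (S l).min' h with hi
          obtain ⟨i', hi', hne⟩ := exists_mem_ne (mem_filter.1 hl).2 i
          have hlt : i < i' := lt_of_le_of_ne (min'_le _ _ hi') hne.symm
          obtain ⟨q, hq1, hq2⟩ := (mem_filter.1 hi').2
          have hi2 : i ∈ S l' := by rw [heq]; exact min'_mem _ _
          obtain ⟨r, hr1, hr2⟩ := (mem_filter.1 hi2).2
          have e1 : q < r := hw l (hBI hl) l' (hBI hl') hll q hq2 r hr2
          have e2 : r < q := hg i i' hlt r hr1 q hq1
          omega
        intro l hl l' hl' heq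
        have h1 := hSne l hl
        have h2 := hSne l' hl'
        simp only [dif_pos h1, dif_pos h2] at heq
        rcases lt_trichotomy l l' with h3 | h3 | h3
        · exact absurd heq (key l hl l' hl' h3 h1 h2)
        · exact h3
        · exact absurd heq.symm (key l' hl' l hl h3 h2 h1)
    rwa [card_range] at hc
  · intro i
    simp only [hJ]
    split_ifs
    · exact filter_subset _ _
    · exact empty_subset _
  · intro i j hij
    rw [Finset.disjoint_left]
    intro l hi hj
    simp only [hJ] at hi hj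
    split_ifs at hi with h1
    · split_ifs at hj with h2
      · obtain ⟨a1, a2⟩ := mem_filter.1 hi
        obtain ⟨b1, b2⟩ := mem_filter.1 hj
        obtain ⟨c1, c2⟩ := mem_sdiff.1 a1
        apply c2
        refine mem_filter.2 ⟨c1, ?_⟩
        rw [one_lt_card]
        exact ⟨i, mem_filter.2 ⟨mem_range.2 h1, a2⟩, j, mem_filter.2 ⟨mem_range.2 h2, b2⟩, hij⟩
      · exact absurd hj (notMem_empty l)
    · exact absurd hi (notMem_empty l)
  · have e1 : ∑ l ∈ B, ∑ i ∈ range P, dot (g i) (w l) =
        ∑ i ∈ range P, ∑ l ∈ B, dot (g i) (w l) := sum_comm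
    rw [e1, ← sum_add_distrib]
    refine sum_congr rfl fun i hi => ?_
    have hiP := mem_range.1 hi
    rw [dot_sum_right, dot_sum_right, ← sum_sdiff hBI]
    congr 1
    have hJi : J i = (I \ B).filter (fun l => met i l) := by
      simp only [hJ]
      rw [if_pos hiP]
    rw [hJi]
    symm
    refine sum_filter_of_ne fun l _ hne => ?_
    by_contra hc
    apply hne
    refine dot_zero_of fun q hq hq' => hc ⟨q, hq, hq'⟩

/-- `∑_{i<P} k_i^a ≤ P^{1-a} (∑ k_i)^a` for `0 < a ≤ 1` (concavity; `0^a = 0`). -/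
theorem sum_rpow_le (P : ℕ) (k : ℕ → ℝ) (hk : ∀ i, 0 ≤ k i) {a : ℝ} (ha : 0 < a) (ha1 : a ≤ 1) :
    ∑ i ∈ range P, (k i) ^ a ≤ (P : ℝ) ^ (1 - a) * (∑ i ∈ range P, k i) ^ a := by
  have h1 : (1 : ℝ) ≤ 1 / a := by rwa [le_div_iff₀ ha, one_mul]
  have h2 := Real.rpow_sum_le_const_mul_sum_rpow_of_nonneg (s := range P)
    (f := fun i => (k i) ^ a) h1 (fun i _ => Real.rpow_nonneg (hk i) a)
  rw [card_range] at h2
  have h3 : ∀ i, ((k i) ^ a) ^ (1 / a) = k i := by
    intro i
    rw [← Real.rpow_mul (hk i), mul_one_div, div_self ha.ne', Real.rpow_one]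
  simp only [h3] at h2
  have hs0 : 0 ≤ ∑ i ∈ range P, (k i) ^ a := sum_nonneg fun i _ => Real.rpow_nonneg (hk i) a
  have hs1 : 0 ≤ ∑ i ∈ range P, k i := sum_nonneg fun i _ => hk i
  have h4 := Real.rpow_le_rpow (Real.rpow_nonneg hs0 _) h2 ha.le
  rw [← Real.rpow_mul hs0, one_div_mul_cancel ha.ne', Real.rpow_one,
    Real.mul_rpow (Real.rpow_nonneg (Nat.cast_nonneg P) _) hs1,
    ← Real.rpow_mul (Nat.cast_nonneg P)] at h4
  have h5 : (1 / a - 1) * a = 1 - a := by
    field_simp
  rwa [h5] at h4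

end Pool.Agent.HB
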