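import Pool.Agent.HB.T.Basic
import Pool.Agent.HB.T.Split

/-!
# HB.T.Ris: the basic inequality for rapidly increasing sequences

PROOF of `ris`.  Fix `c`, `m = m_{c+1}`, `N = N_c ≥ 100`, `a = 1 - 1/N ∈ [1/2, 1)`.  By `TT_le` it suffices to prove, by
induction on `KK p γ`, that for ALL families (`I`, `w`, `Hom`, `ε` generalized, `K` fixed; `K ≥ 0` because either `I` is
empty or `TT ≥ 0`; use `eps` with `C = ∅`: `0 ≤ K`) with `RIS p K I w Hom ε`:
`dot γ (∑_{l∈I} w l) ≤ 5K (|I|/m + |I|^a)`.  Write `k = |I|`, `y = ∑_{l ∈ I} w l`.  If `I = ∅` the left side is `0`, so let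
`k ≥ 1`, hence `k^a ≥ 1`, `√k ≤ k^a`.
* `0`: trivial.  `single i`: at most one `l ∈ I` has `i` in its support, so `dot = y i ≤ K ≤ K k^a` (`coord_le_TT`).
* step `γ = ∑_{c'∈C} (b c'/m c') ∑_{i<n_{c'}} g c' i`.  `dot γ y = ∑_{c'∈C} b c' A c'`,
  `A c' = (1/m c') ∑_{i<n_{c'}} dot (g c' i) y`, `0 ≤ b c' ≤ 1`.
  Let `hm c' = ∑_{l∈I, c'∈Hom l} Tc c' (w l)` (at most one term) and `e c' = ∑_{l∈I} ε l c'`.
  - `c' ≤ c`: apply `split_lemma` with `P = n_{c'}`: `A c' ≤ (1/m c') ∑_i dot (g c' i) (∑_{J i} w) + ∑_{l∈B} Tc c' (w l)`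
    (`(1/m c') ∑_{i<n_{c'}} g c' i ∈ KKc c'`, `le_Tc`).  By the induction hypothesis for `g c' i` and the subfamily `J i`
    (a subfamily of a RIS is a RIS), with `k_i = |J i|`, `∑ k_i ≤ k`:
    first term `≤ (5K/m c') (k/m + ∑ k_i^a) ≤ (5K/m c') (k/m + 2 k^a)` by `sum_rpow_le` and `par_pow`
    (`(n_{c'})^{1/N} ≤ 2`).  Second term: `≤ |B| K/m c' + e c' + hm c'` and
    `|B| ≤ min(k, n_{c'}) ≤ (n_{c'})^{1/N} k^{a} ≤ 2 k^a` (`min x y ≤ x^{θ} y^{1-θ}`).
    Total: `A c' ≤ (K/m c') (5k/m + 12 k^a) + e c' + hm c'`.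
  - `c' > c`: `A c' ≤ ∑_{l∈I} Tc c' (w l) ≤ K k/m c' + e c' + hm c'`.
  Sum up with `b c' ≤ 1`: `∑_{c' ≤ c} 1/m c' ≤ 1/20` (`par_sum_inv`) gives `K (k/(4m) + 0.6 k^a)`;
  `∑_{c' ≥ c+1} 1/m c' ≤ 2/m` (`par_sum_tail`) gives `2 K k/m`;
  `∑ b c' e c' = ∑_l ∑_{c'} b c' ε l c' ≤ ∑_l √(∑_{c'∈C} ε²) ≤ K ≤ K k^a` (Cauchy-Schwarz, `∑ b² ≤ 1`);
  `∑ b c' hm c' ≤ √(∑ (hm c')²)`, `(hm c')² = ∑_{l∈I: c'∈Hom l} (Tc c' (w l))²` (disjointness of the `Hom l`), and
  `∑_{c'} (hm c')² ≤ ∑_{l∈I} ∑_{c'∈C∩Hom l} (Tc c' (w l))² ≤ ∑_l TT(w l)² ≤ k K²` (`sum_Tc_sq`), so `≤ K √k ≤ K k^a`.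
  Total `≤ K (2.25 k/m + 2.6 k^a) ≤ 5K (k/m + k^a)`.
-/

open Finset

namespace Pool.Agent.HB

/-- Rapidly increasing sequences. -/
structure RIS (p : Par) (K : ℝ) (I : Finset ℕ) (w : ℕ → RV) (Hom : ℕ → Finset ℕ)
    (ε : ℕ → ℕ → ℝ) : Prop where
  nn : ∀ l ∈ I, 0 ≤ w l
  succ : ∀ l ∈ I, ∀ l' ∈ I, l < l' → Lt (w l) (w l')
  T : ∀ l ∈ I, TT p (w l) ≤ K
  good : ∀ l ∈ I, ∀ c, c ∉ Hom l → Tc p c (w l) ≤ K / p.m c + ε l c
  disj : ∀ l ∈ I, ∀ l' ∈ I, l ≠ l' → Disjoint (Hom l) (Hom l')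
  eps0 : ∀ l c, 0 ≤ ε l c
  eps : ∀ C : Finset ℕ, ∑ l ∈ I, √(∑ c ∈ C, ε l c ^ 2) ≤ K

theorem RIS.sub {p : Par} {K : ℝ} {I : Finset ℕ} {w : ℕ → RV} {Hom : ℕ → Finset ℕ}
    {ε : ℕ → ℕ → ℝ} (h : RIS p K I w Hom ε) {J : Finset ℕ} (hJ : J ⊆ I) : RIS p K J w Hom ε where
  nn l hl := h.nn l (hJ hl)
  succ l hl l' hl' := h.succ l (hJ hl) l' (hJ hl')
  T l hl := h.T l (hJ hl)
  good l hl := h.good l (hJ hl)
  disj l hl l' hl' := h.disj l (hJ hl) l' (hJ hl')
  eps0 := h.eps0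
  eps C := (Finset.sum_le_sum_of_subset_of_nonneg hJ fun _ _ _ => Real.sqrt_nonneg _).trans
    (h.eps C)

section aux

variable {p : Par} {K : ℝ} {I : Finset ℕ} {w : ℕ → RV} {Hom : ℕ → Finset ℕ}
  {ε : ℕ → ℕ → ℝ}

private theorem ris_K0 (h : RIS p K I w Hom ε) : 0 ≤ K := by
  have := h.eps ∅
  simpa using this

/-- the homogeneous part -/
private noncomputable def rhm (p : Par) (I : Finset ℕ) (w : ℕ → RV) (Hom : ℕ → Finset ℕ) (c' : ℕ) : ℝ :=
  ∑ l ∈ I, if c' ∈ Hom l then Tc p c' (w l) else 0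

private theorem rhm_nonneg (c' : ℕ) : 0 ≤ rhm p I w Hom c' := by
  refine Finset.sum_nonneg fun l _ => ?_
  split_ifs
  · exact Tc_nonneg _ _
  · exact le_rfl

private theorem ris_Tcsum (h : RIS p K I w Hom ε) (c' : ℕ) {B : Finset ℕ} (hB : B ⊆ I) :
    ∑ l ∈ B, Tc p c' (w l) ≤ (B.card : ℝ) * (K / p.m c') + ∑ l ∈ I, ε l c' +
      rhm p I w Hom c' := by
  have hK := ris_K0 h
  have hm := par_m_pos p c'
  have hKm : 0 ≤ K / p.m c' := div_nonneg hK hm.le
  have h1 : ∑ l ∈ B, Tc p c' (w l) ≤ ∑ l ∈ B, (K / p.m c' + ε l c' +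
      if c' ∈ Hom l then Tc p c' (w l) else 0) := by
    refine Finset.sum_le_sum fun l hl => ?_
    by_cases hc : c' ∈ Hom l
    · rw [if_pos hc]
      have := h.eps0 l c'
      linarith
    · rw [if_neg hc, add_zero]
      exact h.good l (hB hl) c' hc
  rw [Finset.sum_add_distrib, Finset.sum_add_distrib, Finset.sum_const, nsmul_eq_mul] at h1
  have h2 : ∑ l ∈ B, ε l c' ≤ ∑ l ∈ I, ε l c' :=
    Finset.sum_le_sum_of_subset_of_nonneg hB fun l _ _ => h.eps0 l c'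
  have h3 : (∑ l ∈ B, if c' ∈ Hom l then Tc p c' (w l) else 0) ≤ rhm p I w Hom c' := by
    refine Finset.sum_le_sum_of_subset_of_nonneg hB fun l _ _ => ?_
    split_ifs
    · exact Tc_nonneg _ _
    · exact le_rfl
  linarith

private theorem rhm_sq (h : RIS p K I w Hom ε) (c' : ℕ) :
    rhm p I w Hom c' ^ 2 ≤ ∑ l ∈ I, if c' ∈ Hom l then Tc p c' (w l) ^ 2 else 0 := by
  by_cases hex : ∃ l₀ ∈ I, c' ∈ Hom l₀
  · obtain ⟨l₀, hl₀, hc⟩ := hex
    have hne : ∀ l ∈ I, l ≠ l₀ → c' ∉ Hom l := fun l hl hne hcl =>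
      (Finset.disjoint_left.1 (h.disj l hl l₀ hl₀ hne)) hcl hc
    have h1 : rhm p I w Hom c' = Tc p c' (w l₀) := by
      rw [rhm, Finset.sum_eq_single_of_mem l₀ hl₀ (fun l hl hn => if_neg (hne l hl hn)),
        if_pos hc]
    rw [h1]
    have h2 : (if c' ∈ Hom l₀ then Tc p c' (w l₀) ^ 2 else 0) ≤
        ∑ l ∈ I, if c' ∈ Hom l then Tc p c' (w l) ^ 2 else 0 := by
      refine Finset.single_le_sum (f := fun l => if c' ∈ Hom l then Tc p c' (w l) ^ 2 else 0)
        (fun l _ => ?_) hl₀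
      split_ifs
      · exact sq_nonneg _
      · exact le_rfl
    rwa [if_pos hc] at h2
  · push Not at hex
    have h1 : rhm p I w Hom c' = 0 := Finset.sum_eq_zero fun l hl => if_neg (hex l hl)
    rw [h1, zero_pow two_ne_zero]
    refine Finset.sum_nonneg fun l _ => ?_
    split_ifs
    · exact sq_nonneg _
    · exact le_rfl

private theorem ris_hm (h : RIS p K I w Hom ε) (C : Finset ℕ) :
    ∑ c' ∈ C, rhm p I w Hom c' ^ 2 ≤ (I.card : ℝ) * K ^ 2 := by
  calc ∑ c' ∈ C, rhm p I w Hom c' ^ 2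
      ≤ ∑ c' ∈ C, ∑ l ∈ I, (if c' ∈ Hom l then Tc p c' (w l) ^ 2 else 0) :=
        Finset.sum_le_sum fun c' _ => rhm_sq h c'
    _ = ∑ l ∈ I, ∑ c' ∈ C, (if c' ∈ Hom l then Tc p c' (w l) ^ 2 else 0) := Finset.sum_comm
    _ ≤ ∑ l ∈ I, K ^ 2 := by
        refine Finset.sum_le_sum fun l hl => ?_
        calc ∑ c' ∈ C, (if c' ∈ Hom l then Tc p c' (w l) ^ 2 else 0)
            ≤ ∑ c' ∈ C, Tc p c' (w l) ^ 2 := by
              refine Finset.sum_le_sum fun c' _ => ?_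
              split_ifs
              · exact le_rfl
              · exact sq_nonneg _
          _ ≤ TT p (w l) ^ 2 := sum_Tc_sq (h.nn l hl) C
          _ ≤ K ^ 2 := pow_le_pow_left₀ (TT_nonneg _) (h.T l hl) 2
    _ = (I.card : ℝ) * K ^ 2 := by rw [Finset.sum_const, nsmul_eq_mul]

private theorem ris_bhm (h : RIS p K I w Hom ε) (C : Finset ℕ) (b : ℕ → ℝ)
    (hb2 : ∑ c ∈ C, b c ^ 2 ≤ 1) :
    ∑ c' ∈ C, b c' * rhm p I w Hom c' ≤ √(I.card : ℝ) * K := by
  have hK := ris_K0 h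
  have h1 := Real.sum_mul_le_sqrt_mul_sqrt C b (rhm p I w Hom)
  have h2 : √(∑ c ∈ C, b c ^ 2) ≤ 1 := Real.sqrt_le_one.2 hb2
  have h3 : √(∑ c' ∈ C, rhm p I w Hom c' ^ 2) ≤ √(I.card : ℝ) * K := by
    have h4 := Real.sqrt_le_sqrt (ris_hm h C)
    rwa [Real.sqrt_mul (Nat.cast_nonneg _), Real.sqrt_sq hK] at h4
  calc ∑ c' ∈ C, b c' * rhm p I w Hom c' ≤ _ := h1
    _ ≤ 1 * (√(I.card : ℝ) * K) :=
        mul_le_mul h2 h3 (Real.sqrt_nonneg _) zero_le_one
    _ = _ := one_mul _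

private theorem ris_beps (h : RIS p K I w Hom ε) (C : Finset ℕ) (b : ℕ → ℝ)
    (hb2 : ∑ c ∈ C, b c ^ 2 ≤ 1) : ∑ c' ∈ C, b c' * ∑ l ∈ I, ε l c' ≤ K := by
  have h2 : √(∑ c ∈ C, b c ^ 2) ≤ 1 := Real.sqrt_le_one.2 hb2
  calc ∑ c' ∈ C, b c' * ∑ l ∈ I, ε l c' = ∑ l ∈ I, ∑ c' ∈ C, b c' * ε l c' := by
        rw [Finset.sum_comm]
        exact Finset.sum_congr rfl fun c' _ => Finset.mul_sum _ _ _
    _ ≤ ∑ l ∈ I, √(∑ c ∈ C, ε l c ^ 2) := by
        refine Finset.sum_le_sum fun l _ => ?_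
        refine (Real.sum_mul_le_sqrt_mul_sqrt C b (ε l)).trans ?_
        calc √(∑ c ∈ C, b c ^ 2) * √(∑ c ∈ C, ε l c ^ 2) ≤ 1 * √(∑ c ∈ C, ε l c ^ 2) :=
              mul_le_mul_of_nonneg_right h2 (Real.sqrt_nonneg _)
          _ = _ := one_mul _
    _ ≤ K := h.eps C

/-- successive functionals against the members of a subfamily -/
private theorem ris_part {c' : ℕ} {g : ℕ → RV} (hs : ∀ i j, i < j → Lt (g i) (g j))
    (hg : ∀ i, KK p (g i)) (B : Finset ℕ) :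
    (1 / p.m c') * ∑ l ∈ B, ∑ i ∈ range (p.n c'), dot (g i) (w l) ≤ ∑ l ∈ B, Tc p c' (w l) := by
  rw [Finset.mul_sum]
  refine Finset.sum_le_sum fun l _ => ?_
  have h1 : ((1 / p.m c') • ∑ i ∈ range (p.n c'), g i) ∈ KKc p c' := ⟨g, hs, hg, rfl⟩
  have h2 := le_Tc h1 (w l)
  rwa [dot_smul_left, dot_sum_left] at h2

end aux

theorem ris_dot {p : Par} {K : ℝ} (c : ℕ) {γ : RV} (hγ : KK p γ) :
    ∀ (I : Finset ℕ) (w : ℕ → RV) (Hom : ℕ → Finset ℕ) (ε : ℕ → ℕ → ℝ), RIS p K I w Hom ε →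
      dot γ (∑ l ∈ I, w l) ≤
        5 * K * ((I.card : ℝ) / p.m (c + 1) + (I.card : ℝ) ^ (1 - 1 / (p.N c : ℝ))) := by
  have hNge : (100 : ℝ) ≤ p.N c := by exact_mod_cast par_N_ge p c
  have hNpos : (0 : ℝ) < p.N c := by linarith
  have hNinv : 1 / (p.N c : ℝ) ≤ 1 / 2 := one_div_le_one_div_of_le (by norm_num) (by linarith)
  have hNinv0 : 0 < 1 / (p.N c : ℝ) := one_div_pos.2 hNpos
  set a : ℝ := 1 - 1 / (p.N c : ℝ) with ha
  have ha0 : 0 < a := by linarith
  have ha1 : a ≤ 1 := by linarith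
  have hah : 1 / 2 ≤ a := by linarith
  have h1a : 1 - a = 1 / (p.N c : ℝ) := by rw [ha]; ring
  set m : ℝ := p.m (c + 1) with hmdef
  have hmpos : 0 < m := par_m_pos p (c + 1)
  have hpos : ∀ (I : Finset ℕ), 0 ≤ (I.card : ℝ) / m + (I.card : ℝ) ^ a := fun I =>
    add_nonneg (div_nonneg (Nat.cast_nonneg _) hmpos.le) (Real.rpow_nonneg (Nat.cast_nonneg _) _)
  induction hγ with
  | zero =>
    intro I w Hom ε h
    rw [dot_zero_left]
    exact mul_nonneg (mul_nonneg (by norm_num) (ris_K0 h)) (hpos I)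
  | single i =>
    intro I w Hom ε h
    have hK := ris_K0 h
    rw [dot_single_left, one_mul, Finsupp.finsetSum_apply]
    by_cases hex : ∃ l₀ ∈ I, w l₀ i ≠ 0
    · obtain ⟨l₀, hl₀, hne⟩ := hex
      have h1 : ∑ l ∈ I, w l i = w l₀ i := by
        refine Finset.sum_eq_single_of_mem l₀ hl₀ fun l hl hn => ?_
        by_contra hcon
        rcases lt_or_gt_of_ne hn with hlt | hlt
        · exact lt_irrefl i (h.succ l hl l₀ hl₀ hlt i (Finsupp.mem_support_iff.2 hcon) i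
            (Finsupp.mem_support_iff.2 hne))
        · exact lt_irrefl i (h.succ l₀ hl₀ l hl hlt i (Finsupp.mem_support_iff.2 hne) i
            (Finsupp.mem_support_iff.2 hcon))
      rw [h1]
      have h2 : w l₀ i ≤ K := (coord_le_TT (p := p) (w l₀) i).trans (h.T l₀ hl₀)
      have h3 : (1 : ℝ) ≤ (I.card : ℝ) := by
        exact_mod_cast Finset.card_pos.2 ⟨l₀, hl₀⟩
      have h4 : (1 : ℝ) ≤ (I.card : ℝ) ^ a := Real.one_le_rpow h3 ha0.le
      have h5 : 0 ≤ (I.card : ℝ) / m := div_nonneg (Nat.cast_nonneg _) hmpos.le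
      nlinarith
    · push Not at hex
      rw [Finset.sum_eq_zero hex]
      exact mul_nonneg (mul_nonneg (by norm_num) hK) (hpos I)
  | step C b g hb hb2 hs hg ih =>
    intro I w Hom ε h
    have hK := ris_K0 h
    rcases I.eq_empty_or_nonempty with rfl | hne
    · rw [Finset.sum_empty, dot_zero_right]
      exact mul_nonneg (mul_nonneg (by norm_num) hK) (hpos ∅)
    have hk1 : (1 : ℝ) ≤ (I.card : ℝ) := by
      exact_mod_cast Finset.card_pos.2 hne
    set k : ℝ := (I.card : ℝ) with hk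
    have hk0 : 0 < k := by linarith
    have hka : (1 : ℝ) ≤ k ^ a := Real.one_le_rpow hk1 ha0.le
    have hsqrt : √k ≤ k ^ a := by
      rw [Real.sqrt_eq_rpow]
      exact Real.rpow_le_rpow_of_exponent_le hk1 hah
    set y : RV := ∑ l ∈ I, w l with hy
    -- the value
    have hval : dot (∑ c' ∈ C, (b c' / p.m c') • ∑ i ∈ range (p.n c'), g c' i) y =
        ∑ c' ∈ C, b c' * ((1 / p.m c') * ∑ i ∈ range (p.n c'), dot (g c' i) y) := by
      rw [dot_sum_left]
      refine Finset.sum_congr rfl fun c' _ => ?_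
      rw [dot_smul_left, dot_sum_left]
      ring
    rw [hval]
    have hb1 : ∀ c' ∈ C, b c' ≤ 1 := by
      intro c' hc'
      have h1 : b c' ^ 2 ≤ 1 :=
        (Finset.single_le_sum (f := fun c => b c ^ 2) (fun _ _ => sq_nonneg _) hc').trans hb2
      have h2 := hb c'
      nlinarith
    -- large codes
    have hlarge : ∀ c', (1 / p.m c') * ∑ i ∈ range (p.n c'), dot (g c' i) y ≤
        k * (K / p.m c') + ∑ l ∈ I, ε l c' + rhm p I w Hom c' := by
      intro c'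
      have h1 : ∑ i ∈ range (p.n c'), dot (g c' i) y =
          ∑ l ∈ I, ∑ i ∈ range (p.n c'), dot (g c' i) (w l) := by
        rw [Finset.sum_comm]
        exact Finset.sum_congr rfl fun i _ => dot_sum_right _ _ _
      rw [h1]
      exact (ris_part (hs c') (hg c') I).trans (ris_Tcsum h c' subset_rfl)
    -- small codes
    have hsmall : ∀ c', c' ≤ c → (1 / p.m c') * ∑ i ∈ range (p.n c'), dot (g c' i) y ≤
        (K / p.m c') * (5 * (k / m) + 12 * k ^ a) + ∑ l ∈ I, ε l c' + rhm p I w Hom c' := by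
      intro c' hc'
      have hm' := par_m_pos p c'
      obtain ⟨J, B, hBI, hBP, hJ, hdisj, hsum⟩ :=
        split_lemma (p.n c') (g c') (hs c') I w h.succ
      rw [hsum, mul_add]
      have hpow : (p.n c' : ℝ) ^ (1 / (p.N c : ℝ)) ≤ 2 := par_pow p hc'
      -- the first part
      have hJI : ∀ i, J i ⊆ I := fun i => (hJ i).trans Finset.sdiff_subset
      have h1 : ∀ i ∈ range (p.n c'), dot (g c' i) (∑ l ∈ J i, w l) ≤
          5 * K * (((J i).card : ℝ) / m + ((J i).card : ℝ) ^ a) := fun i _ =>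
        ih c' i (J i) w Hom ε (h.sub (hJI i))
      have hcard : ∑ i ∈ range (p.n c'), ((J i).card : ℝ) ≤ k := by
        have h2 : ∑ i ∈ range (p.n c'), (J i).card ≤ I.card := by
          rw [← Finset.card_biUnion fun i _ j _ hij => hdisj i j hij]
          exact Finset.card_le_card (Finset.biUnion_subset.2 fun i _ => hJI i)
        rw [hk]
        exact_mod_cast h2
      have hcard0 : 0 ≤ ∑ i ∈ range (p.n c'), ((J i).card : ℝ) :=
        Finset.sum_nonneg fun _ _ => Nat.cast_nonneg _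
      have h3 : ∑ i ∈ range (p.n c'), ((J i).card : ℝ) ^ a ≤ 2 * k ^ a := by
        refine (sum_rpow_le (p.n c') (fun i => ((J i).card : ℝ)) (fun _ => Nat.cast_nonneg _)
          ha0 ha1).trans ?_
        rw [h1a]
        exact mul_le_mul hpow (Real.rpow_le_rpow hcard0 hcard ha0.le)
          (Real.rpow_nonneg hcard0 _) (by norm_num)
      have h4 : ∑ i ∈ range (p.n c'), dot (g c' i) (∑ l ∈ J i, w l) ≤
          5 * K * (k / m + 2 * k ^ a) := by
        refine (Finset.sum_le_sum h1).trans ?_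
        rw [← Finset.mul_sum, Finset.sum_add_distrib, ← Finset.sum_div]
        refine mul_le_mul_of_nonneg_left ?_ (mul_nonneg (by norm_num) hK)
        exact add_le_add (div_le_div_of_nonneg_right hcard hmpos.le) h3
      -- the second part
      have h5 := (ris_part (w := w) (hs c') (hg c') B).trans (ris_Tcsum h c' hBI)
      have hB : (B.card : ℝ) ≤ 2 * k ^ a := by
        rcases Nat.eq_zero_or_pos B.card with h0 | h0
        · rw [h0, Nat.cast_zero]
          positivity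
        · have h0' : (0 : ℝ) < B.card := by exact_mod_cast h0
          have h6 : (B.card : ℝ) = (B.card : ℝ) ^ (1 / (p.N c : ℝ)) * (B.card : ℝ) ^ a := by
            rw [← Real.rpow_add h0', ← h1a, sub_add_cancel, Real.rpow_one]
          rw [h6]
          have h7 : (B.card : ℝ) ^ (1 / (p.N c : ℝ)) ≤ 2 :=
            (Real.rpow_le_rpow h0'.le (by exact_mod_cast hBP) hNinv0.le).trans hpow
          have h8 : (B.card : ℝ) ^ a ≤ k ^ a := by
            refine Real.rpow_le_rpow h0'.le ?_ ha0.le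
            rw [hk]
            exact_mod_cast Finset.card_le_card hBI
          exact mul_le_mul h7 h8 (Real.rpow_nonneg h0'.le _) (by norm_num)
      have hKm : 0 ≤ K / p.m c' := div_nonneg hK hm'.le
      have h9 : (1 / p.m c') * ∑ i ∈ range (p.n c'), dot (g c' i) (∑ l ∈ J i, w l) ≤
          (K / p.m c') * (5 * (k / m) + 10 * k ^ a) := by
        refine (mul_le_mul_of_nonneg_left h4 (one_div_pos.2 hm').le).trans (le_of_eq ?_)
        ring
      have h10 := mul_le_mul_of_nonneg_right hB hKm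
      linarith
    -- summation
    set U : ℕ → ℝ := fun c' => if c' ≤ c then (K / p.m c') * (5 * (k / m) + 12 * k ^ a)
      else k * (K / p.m c') with hU
    have hA : ∀ c', (1 / p.m c') * ∑ i ∈ range (p.n c'), dot (g c' i) y ≤
        U c' + ∑ l ∈ I, ε l c' + rhm p I w Hom c' := by
      intro c'
      by_cases hc : c' ≤ c
      · simp only [hU, if_pos hc]
        exact hsmall c' hc
      · simp only [hU, if_neg hc]
        exact hlarge c'
    have hkm0 : 0 ≤ k / m := div_nonneg hk0.le hmpos.le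
    have hU0 : ∀ c', 0 ≤ U c' := by
      intro c'
      have hKm : 0 ≤ K / p.m c' := div_nonneg hK (par_m_pos p c').le
      simp only [hU]
      split_ifs
      · exact mul_nonneg hKm (by positivity)
      · exact mul_nonneg hk0.le hKm
    have hsumU : ∑ c' ∈ C, U c' ≤ K * (5 * (k / m) + 12 * k ^ a) * (1 / 20) +
        K * k * (2 / m) := by
      have h1 : ∑ c' ∈ C, U c' = K * (5 * (k / m) + 12 * k ^ a) *
          ∑ c' ∈ C.filter (fun c' => c' ≤ c), 1 / p.m c' +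
          K * k * ∑ c' ∈ C.filter (fun c' => ¬ c' ≤ c), 1 / p.m c' := by
        rw [← Finset.sum_filter_add_sum_filter_not C (fun c' => c' ≤ c) U, Finset.mul_sum,
          Finset.mul_sum]
        congr 1
        · refine Finset.sum_congr rfl fun c' hc => ?_
          simp only [hU, if_pos (Finset.mem_filter.1 hc).2]
          ring
        · refine Finset.sum_congr rfl fun c' hc => ?_
          simp only [hU, if_neg (Finset.mem_filter.1 hc).2]
          ring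
      rw [h1]
      refine add_le_add (mul_le_mul_of_nonneg_left (par_sum_inv p _) (by positivity))
        (mul_le_mul_of_nonneg_left (par_sum_tail p _ (c + 1) fun c' hc => ?_) (by positivity))
      have := (Finset.mem_filter.1 hc).2
      omega
    calc ∑ c' ∈ C, b c' * ((1 / p.m c') * ∑ i ∈ range (p.n c'), dot (g c' i) y)
        ≤ ∑ c' ∈ C, (U c' + b c' * ∑ l ∈ I, ε l c' + b c' * rhm p I w Hom c') := by
          refine Finset.sum_le_sum fun c' hc' => ?_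
          have h1 := mul_le_mul_of_nonneg_left (hA c') (hb c')
          have h2 : b c' * U c' ≤ U c' := mul_le_of_le_one_left (hU0 c') (hb1 c' hc')
          linarith
      _ = ∑ c' ∈ C, U c' + ∑ c' ∈ C, b c' * ∑ l ∈ I, ε l c' +
          ∑ c' ∈ C, b c' * rhm p I w Hom c' := by
          rw [Finset.sum_add_distrib, Finset.sum_add_distrib]
      _ ≤ (K * (5 * (k / m) + 12 * k ^ a) * (1 / 20) + K * k * (2 / m)) + K + √k * K :=
          add_le_add (add_le_add hsumU (ris_beps h C b hb2)) (ris_bhm h C b hb2)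
      _ ≤ 5 * K * (k / m + k ^ a) := by
          have h1 : K ≤ K * k ^ a := le_mul_of_one_le_right hK hka
          have h2 : √k * K ≤ K * k ^ a := by
            rw [mul_comm]
            exact mul_le_mul_of_nonneg_left hsqrt hK
          have h3 : K * k * (2 / m) = 2 * (K * (k / m)) := by ring
          have h4 : 0 ≤ K * (k / m) := mul_nonneg hK hkm0
          have h5 : 0 ≤ K * k ^ a := mul_nonneg hK (by linarith)
          rw [h3]
          nlinarith

theorem ris {p : Par} {K : ℝ} {I : Finset ℕ} {w : ℕ → RV} {Hom : ℕ → Finset ℕ}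
    {ε : ℕ → ℕ → ℝ} (h : RIS p K I w Hom ε) (c : ℕ) :
    TT p (∑ l ∈ I, w l) ≤
      5 * K * ((I.card : ℝ) / p.m (c + 1) + (I.card : ℝ) ^ (1 - 1 / (p.N c : ℝ))) :=
  TT_le fun _ hγ => ris_dot c hγ I w Hom ε h

end Pool.Agent.HB
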