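import Pool.Agent.HB.T.Basic

/-!
# HB.T.Gamma: the sets `Gam`, `Gamc`

PROOFS.
* `GoodSet`: `0` and nonnegativity clear; `γ i = dot γ (single i 1) ≤ TT (single i 1) = 1` (resp. `≤ 1/m c ≤ 1`, since
  `Tc c (single i 1) ≤ 1/m c` by `Tc_le_sum`); convexity clear; restriction: `dot (res E γ) y = dot γ (res E y) ≤ TT (res E y) ≤ TT y`
  (for `Tc`: `Tc_mono`, `res_le`).
* `single`: `dot (single i 1) y = y i ≤ TT y`; `dot (single i (1/m c)) y = y i/m c ≤ Tc c y` as `(1/m c) • single i 1 ∈ KKc c`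
  (`g 0 = single i 1`, other `g = 0`; note `n c ≥ 1`).
* `gamc_sub`: `Tc_le_TT`.
* `gamc_avg`: let `γ i ∈ Gam`, successive, `y ≥ 0`, `δ > 0`.  `E i` = the support of `γ i` (as a set), choose `g i ∈ KK` with
  `dot (g i) (res (E i) y) ≥ TT (res (E i) y) - δ`, replace `g i` by `res (E i) (g i) ∈ KK` (`kk_res`); these are successive, so
  `(1/m c) ∑ res (E i) (g i) ∈ KKc c` and
  `dot ((1/m c) ∑ γ i) y = (1/m c) ∑ dot (γ i) (res (E i) y) ≤ (1/m c) ∑ (dot (res (E i) (g i)) y + δ) ≤ Tc c y + δ n_c/m c`.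
* `gam_comb`: `dot (∑ b c • γ c) y ≤ ∑ b c Tc c y ≤ √(∑b²) √(∑ Tc²) ≤ TT y` (`sum_Tc_sq`).
-/

open Finset

namespace Pool.Agent.HB

variable {p : Par}

/-- `single i 1` is nonnegative -/
theorem single_one_nonneg (i : ℕ) : (0 : RV) ≤ Finsupp.single i 1 := by
  intro j
  rw [Finsupp.single_apply]
  split_ifs
  · exact zero_le_one
  · exact le_rfl

theorem Tc_single_le (p : Par) (c i : ℕ) : Tc p c (Finsupp.single i 1) ≤ 1 / p.m c := by
  refine Tc_le fun γ h => ?_
  rw [dot_single_right, mul_one]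
  exact kkc_le h i

theorem inv_m_le_one (p : Par) (c : ℕ) : 1 / p.m c ≤ 1 := by
  rw [div_le_one (par_m_pos p c)]
  exact le_trans (by norm_num) (par_m_ge p c)

theorem good_gam (p : Par) : GoodSet (Gam p) where
  zero := ⟨le_rfl, fun y _ => by
    rw [dot_zero_left]
    exact TT_nonneg y⟩
  nn := fun γ h => h.1
  le_one := fun γ h i => by
    have := h.2 (Finsupp.single i 1) (single_one_nonneg i)
    rwa [dot_single_right, mul_one, TT_single] at this
  conv := by
    intro γ hγ δ hδ a b ha hb hab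
    refine ⟨add_nonneg ?_ ?_, fun y hy => ?_⟩
    · intro i
      rw [Finsupp.smul_apply]
      exact mul_nonneg ha (hγ.1 i)
    · intro i
      rw [Finsupp.smul_apply]
      exact mul_nonneg hb (hδ.1 i)
    · rw [dot_add_left, dot_smul_left, dot_smul_left]
      have h1 := mul_le_mul_of_nonneg_left (hγ.2 y hy) ha
      have h2 := mul_le_mul_of_nonneg_left (hδ.2 y hy) hb
      have h3 : a * TT p y + b * TT p y = TT p y := by rw [← add_mul, hab, one_mul]
      linarith
  res := fun γ h E => ⟨res_nonneg E h.1, fun y hy => by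
    rw [dot_res_left]
    exact (h.2 _ (res_nonneg E hy)).trans (TT_res_le hy E)⟩

theorem gamc_le {c : ℕ} {γ : RV} (h : γ ∈ Gamc p c) (i : ℕ) : γ i ≤ 1 / p.m c := by
  have := h.2 (Finsupp.single i 1) (single_one_nonneg i)
  rw [dot_single_right, mul_one] at this
  exact this.trans (Tc_single_le p c i)

theorem good_gamc (p : Par) (c : ℕ) : GoodSet (Gamc p c) where
  zero := ⟨le_rfl, fun y _ => by
    rw [dot_zero_left]
    exact Tc_nonneg c y⟩
  nn := fun γ h => h.1
  le_one := fun γ h i => (gamc_le h i).trans (inv_m_le_one p c)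
  conv := by
    intro γ hγ δ hδ a b ha hb hab
    refine ⟨add_nonneg ?_ ?_, fun y hy => ?_⟩
    · intro i
      rw [Finsupp.smul_apply]
      exact mul_nonneg ha (hγ.1 i)
    · intro i
      rw [Finsupp.smul_apply]
      exact mul_nonneg hb (hδ.1 i)
    · rw [dot_add_left, dot_smul_left, dot_smul_left]
      have h1 := mul_le_mul_of_nonneg_left (hγ.2 y hy) ha
      have h2 := mul_le_mul_of_nonneg_left (hδ.2 y hy) hb
      have h3 : a * Tc p c y + b * Tc p c y = Tc p c y := by rw [← add_mul, hab, one_mul]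
      linarith
  res := fun γ h E => ⟨res_nonneg E h.1, fun y hy => by
    rw [dot_res_left]
    exact (h.2 _ (res_nonneg E hy)).trans (Tc_mono c (res_le E hy))⟩

theorem gam_single (p : Par) (i : ℕ) : Finsupp.single i 1 ∈ Gam p := by
  refine ⟨single_one_nonneg i, fun y _ => ?_⟩
  rw [dot_single_left, one_mul]
  exact coord_le_TT y i

theorem gamc_single (p : Par) (c i : ℕ) : Finsupp.single i (1 / p.m c) ∈ Gamc p c := by
  have hm := par_m_pos p c
  refine ⟨fun j => ?_, fun y _ => le_Tc ?_ y⟩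
  · rw [Finsupp.single_apply]
    split_ifs
    · exact div_nonneg zero_le_one hm.le
    · exact le_rfl
  · refine ⟨fun k => if k = 0 then Finsupp.single i 1 else 0, fun k l hkl => ?_, fun k => ?_, ?_⟩
    · have hl : l ≠ 0 := by omega
      dsimp only
      rw [if_neg hl]
      intro a _ b hb
      simp at hb
    · dsimp only
      split_ifs
      · exact KK.single i
      · exact KK.zero
    · rw [Finset.sum_ite_eq' (range (p.n c)) 0, if_pos (Finset.mem_range.2 (par_n_pos p c))]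
      rw [Finsupp.smul_single, smul_eq_mul, mul_one]

theorem gamc_sub (p : Par) (c : ℕ) : Gamc p c ⊆ Gam p :=
  fun _ h => ⟨h.1, fun y hy => (h.2 y hy).trans (Tc_le_TT c y)⟩

theorem gamc_avg {c : ℕ} {γ : ℕ → RV} (h : ∀ i < p.n c, γ i ∈ Gam p)
    (hs : ∀ i < p.n c, ∀ j < p.n c, i < j → Lt (γ i) (γ j)) :
    (1 / p.m c) • ∑ i ∈ range (p.n c), γ i ∈ Gamc p c := by
  have hm := par_m_pos p c
  have hm0 : 0 ≤ 1 / p.m c := div_nonneg zero_le_one hm.le
  have hn : (0 : ℝ) < p.n c := Nat.cast_pos.2 (par_n_pos p c)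
  refine ⟨fun k => ?_, fun y hy => ?_⟩
  · rw [Finsupp.smul_apply, Finsupp.finsetSum_apply]
    exact mul_nonneg hm0 (Finset.sum_nonneg fun i hi => (h i (Finset.mem_range.1 hi)).1 k)
  refine le_of_forall_pos_le_add fun ε hε => ?_
  set δ := ε / p.n c with hδ
  have hδ0 : 0 < δ := div_pos hε hn
  set E : ℕ → Set ℕ := fun i => {k | k ∈ (γ i).support} with hE
  have hex := fun i => TT_exists (p := p) (res (E i) y) hδ0
  choose g hg hgy using hex
  set g' : ℕ → RV := fun i => if i < p.n c then res (E i) (g i) else 0 with hg'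
  have hlt : ∀ i j, i < j → Lt (g' i) (g' j) := by
    intro i j hij
    by_cases hj : j < p.n c
    · have hi : i < p.n c := by omega
      simp only [hg', if_pos hj, if_pos hi]
      intro a ha b hb
      exact hs i hi j hj hij a ((res_support _ _).1 ha).1 b ((res_support _ _).1 hb).1
    · simp only [hg', if_neg hj]
      intro a _ b hb
      simp at hb
  have hkk : ∀ i, KK p (g' i) := by
    intro i
    by_cases hi : i < p.n c
    · simp only [hg', if_pos hi]
      exact kk_res (hg i) _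
    · simp only [hg', if_neg hi]
      exact KK.zero
  have h1 := le_Tc (p := p) (c := c) ⟨g', hlt, hkk, rfl⟩ y
  rw [dot_smul_left, dot_sum_left] at h1 ⊢
  have h2 : ∑ i ∈ range (p.n c), dot (γ i) y ≤ ∑ i ∈ range (p.n c), (dot (g' i) y + δ) := by
    refine Finset.sum_le_sum fun i hi => ?_
    have hi' := Finset.mem_range.1 hi
    have h3 : dot (γ i) y = dot (γ i) (res (E i) y) := dot_eq_res (E i) _ _ fun k hk => hk
    have h4 : dot (g' i) y = dot (g i) (res (E i) y) := by
      simp only [hg', if_pos hi']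
      exact dot_res_left _ _ _
    rw [h3, h4]
    have h5 := (h i hi').2 (res (E i) y) (res_nonneg _ hy)
    have h6 := hgy i
    linarith
  rw [Finset.sum_add_distrib, Finset.sum_const, Finset.card_range, nsmul_eq_mul] at h2
  have h7 : (p.n c : ℝ) * δ = ε := by
    rw [hδ]
    field_simp
  rw [h7] at h2
  have h8 := mul_le_mul_of_nonneg_left h2 hm0
  have h9 : (1 / p.m c) * ε ≤ 1 * ε := mul_le_mul_of_nonneg_right (inv_m_le_one p c) hε.le
  rw [mul_add] at h8
  linarith

/-- `∑_{i<n} (1/m) γ_i` is bounded by `Tc`, reformulated for functionals. -/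
theorem dot_gamc_le {c : ℕ} {γ : RV} (h : γ ∈ Gamc p c) {y : RV} (hy : 0 ≤ y) :
    dot γ y ≤ Tc p c y := h.2 y hy

theorem dot_gam_le {γ : RV} (h : γ ∈ Gam p) {y : RV} (hy : 0 ≤ y) : dot γ y ≤ TT p y := h.2 y hy

theorem gam_comb (C : Finset ℕ) (b : ℕ → ℝ) (hb : ∀ c ∈ C, 0 ≤ b c) (hb2 : ∑ c ∈ C, b c ^ 2 ≤ 1)
    (γ : ℕ → RV) (hγ : ∀ c ∈ C, γ c ∈ Gamc p c) : ∑ c ∈ C, b c • γ c ∈ Gam p := by
  refine ⟨fun k => ?_, fun y hy => ?_⟩
  · rw [Finsupp.finsetSum_apply]
    refine Finset.sum_nonneg fun c hc => ?_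
    rw [Finsupp.smul_apply]
    exact mul_nonneg (hb c hc) ((hγ c hc).1 k)
  · rw [dot_sum_left]
    have h1 : ∑ c ∈ C, dot (b c • γ c) y ≤ ∑ c ∈ C, b c * Tc p c y := by
      refine Finset.sum_le_sum fun c hc => ?_
      rw [dot_smul_left]
      exact mul_le_mul_of_nonneg_left (dot_gamc_le (hγ c hc) hy) (hb c hc)
    refine h1.trans ?_
    have h2 := Finset.sum_mul_sq_le_sq_mul_sq C b (fun c => Tc p c y)
    have h3 := sum_Tc_sq (p := p) hy C
    have h4 : 0 ≤ ∑ c ∈ C, Tc p c y ^ 2 := Finset.sum_nonneg fun c _ => sq_nonneg _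
    have h5 : (∑ c ∈ C, b c ^ 2) * ∑ c ∈ C, Tc p c y ^ 2 ≤ 1 * TT p y ^ 2 :=
      mul_le_mul hb2 h3 h4 zero_le_one
    rw [one_mul] at h5
    exact (le_abs_self _).trans (abs_le_of_sq_le_sq (h2.trans h5) (TT_nonneg y))

end Pool.Agent.HB
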