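import Pool.Agent.HB.T.Basic
import Pool.Agent.HB.T.Split

/-!
# HB.T.Avg: plain averages

PROOF.  `TT` by convexity.  `Tc`: let `γ = (1/m c) ∑_{i<n_c} g i ∈ KKc c`; by `split_lemma` with `P = n_c`, `I = range N`,
`dot γ (∑ w q) = (1/m c) ∑_i dot (g i) (∑_{J i} w) + ∑_{q∈B} dot γ (w q)`.  First term: `dot (g i) (w q) ≤ TT (w q) ≤ 1` and
`∑ |J i| ≤ N`, so `≤ N/m c`.  Second: `dot γ (w q) ≤ Tc c (w q) ≤ 1`, `|B| ≤ n_c`.  Divide by `N`.
-/

open Finset

namespace Pool.Agent.HB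

theorem avg_TT {p : Par} (N : ℕ) (hN : 0 < N) (w : ℕ → RV) (hT : ∀ q < N, TT p (w q) ≤ 1) :
    TT p ((1 / (N : ℝ)) • ∑ q ∈ range N, w q) ≤ 1 := by
  have hN0 : (0 : ℝ) < N := by exact_mod_cast hN
  rw [TT_smul (by positivity)]
  have h1 : TT p (∑ q ∈ range N, w q) ≤ N := by
    refine (TT_sum_le _ _).trans ?_
    refine (sum_le_sum (g := fun _ => (1 : ℝ)) fun q hq => hT q (mem_range.1 hq)).trans ?_
    rw [sum_const, card_range, nsmul_eq_mul, mul_one]
  calc 1 / (N : ℝ) * TT p (∑ q ∈ range N, w q) ≤ 1 / (N : ℝ) * N :=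
        mul_le_mul_of_nonneg_left h1 (by positivity)
    _ = 1 := by field_simp

theorem avg_Tc {p : Par} (N : ℕ) (hN : 0 < N) (w : ℕ → RV) (hnn : ∀ q < N, 0 ≤ w q)
    (hsucc : ∀ q < N, ∀ q' < N, q < q' → Lt (w q) (w q')) (hT : ∀ q < N, TT p (w q) ≤ 1) (c : ℕ) :
    Tc p c ((1 / (N : ℝ)) • ∑ q ∈ range N, w q) ≤ 1 / p.m c + (p.n c : ℝ) / N := by
  classical
  have hN0 : (0 : ℝ) < N := by exact_mod_cast hN
  have hm : 0 < p.m c := par_m_pos p c
  rw [Tc_smul (by positivity)]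
  have h1 : Tc p c (∑ q ∈ range N, w q) ≤ N / p.m c + p.n c := by
    refine Tc_le fun γ hγ => ?_
    obtain ⟨g, hg, hK, hγe⟩ := hγ
    obtain ⟨J, B, hBI, hBc, hJ, hJd, hid⟩ := split_lemma (p.n c) g hg (range N) w
      (fun l hl l' hl' h => hsucc l (mem_range.1 hl) l' (mem_range.1 hl') h)
    have e1 : dot γ (∑ q ∈ range N, w q) = (1 / p.m c) *
        ∑ i ∈ range (p.n c), dot (g i) (∑ q ∈ range N, w q) := by
      rw [hγe, dot_smul_left, dot_sum_left]
    have e2 : ∀ q, (1 / p.m c) * ∑ i ∈ range (p.n c), dot (g i) (w q) = dot γ (w q) := by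
      intro q
      rw [hγe, dot_smul_left, dot_sum_left]
    rw [e1, hid, mul_add, mul_sum (s := B)]
    have a1 : ∑ i ∈ range (p.n c), dot (g i) (∑ l ∈ J i, w l) ≤ N := by
      have b1 : ∀ i, dot (g i) (∑ l ∈ J i, w l) ≤ (J i).card := by
        intro i
        rw [dot_sum_right]
        refine (sum_le_sum (g := fun _ => (1 : ℝ)) fun q hq => ?_).trans ?_
        · have hq' : q ∈ range N := sdiff_subset (hJ i hq)
          exact (le_TT (hK i) _).trans (hT q (mem_range.1 hq'))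
        · rw [sum_const, nsmul_eq_mul, mul_one]
      refine (sum_le_sum fun i _ => b1 i).trans ?_
      have b2 : ∑ i ∈ range (p.n c), (J i).card = ((range (p.n c)).biUnion J).card :=
        (card_biUnion fun i _ j _ hij => hJd i j hij).symm
      have b3 : ((range (p.n c)).biUnion J).card ≤ N := by
        have : (range (p.n c)).biUnion J ⊆ range N :=
          biUnion_subset.2 fun i _ => (hJ i).trans sdiff_subset
        have := card_le_card this
        rwa [card_range] at this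
      have b4 : ((∑ i ∈ range (p.n c), (J i).card : ℕ) : ℝ) ≤ N := by
        rw [b2]
        exact_mod_cast b3
      rwa [Nat.cast_sum] at b4
    have a2 : ∑ q ∈ B, (1 / p.m c) * ∑ i ∈ range (p.n c), dot (g i) (w q) ≤ p.n c := by
      refine (sum_le_sum (g := fun _ => (1 : ℝ)) fun q hq => ?_).trans ?_
      · rw [e2]
        exact (le_Tc ⟨g, hg, hK, hγe⟩ _).trans
          ((Tc_le_TT c _).trans (hT q (mem_range.1 (hBI hq))))
      · rw [sum_const, nsmul_eq_mul, mul_one]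
        exact_mod_cast hBc
    refine add_le_add ?_ a2
    rw [one_div_mul_eq_div]
    exact div_le_div_of_nonneg_right a1 hm.le
  calc 1 / (N : ℝ) * Tc p c (∑ q ∈ range N, w q)
      ≤ 1 / (N : ℝ) * (N / p.m c + p.n c) := mul_le_mul_of_nonneg_left h1 (by positivity)
    _ = 1 / p.m c + (p.n c : ℝ) / N := by field_simp

end Pool.Agent.HB
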