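import Pool.Agent.HB.T.Ris

/-!
# HB.T.Exact: exact averages of a RIS of length `n_{c+1}`

`w = (m_{c+1}/n_{c+1}) ∑_{l < n_{c+1}} w l`; write `m = m_{c+1}`, `n = n_{c+1}`, `a = 1 - 1/N_c`, `n^a = n / m^4`
(`par_pow_succ`).  `K ≥ 0` (from `eps` with `C = ∅`).

PROOF.
* `TT w = (m/n) TT(∑) ≤ (m/n) 5K (n/m + n/m^4) ≤ 10 K`.
* `c' ≤ c`: let `γ = (1/m c') ∑_{i<n_{c'}} g i ∈ KKc c'`.  `split_lemma` with `P = n_{c'}`; as in `ris`, by `ris_dot`:
  `dot γ (∑ w l) ≤ (5K/m c') (n/m + 2 n^a) + ∑_{l∈B} Tc c' (w l)`, and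
  `∑_{l∈B} Tc c' (w l) ≤ n_{c'} K/m c' + K + K` (good part, `∑_l ε l c' ≤ ∑_l √(∑_{C={c'}} ε²) ≤ K`, home part: at most
  one `l` with `c' ∈ Hom l`, `Tc ≤ TT ≤ K`).  Multiply by `m/n`:
  `≤ (K/m c') (5 + 10/m^3 + (m n_{c'} + 2 m m_{c'})/n) ≤ 7K/m c'`, since `m_{c'} ≤ n_{c'} ≤ m` and `n ≥ m^400`, `m ≥ 2^100`.
* `c' > c+1`: for a finite set `C` of such codes, by Minkowski in `ℓ₂(C)` applied to `Tc c' (w) ≤ (m/n) ∑_l Tc c' (w l)` and
  `Tc c' (w l) ≤ K/m c' + ε l c' + [c'∈Hom l] Tc c' (w l)`: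
  `√(∑_C Tc²) ≤ (m/n) (n K √(∑_C 1/m_{c'}²) + K + √(∑_l TT(w l)²)) ≤ (m/n)(n K 2/m_{c+2} + K + K √n) ≤ 3K/m`
  (`√(∑ 1/m²) ≤ ∑ 1/m ≤ 2/m_{c+2}` by `par_sum_tail`, `m_{c+2} ≥ n^20 ≥ 2 m²`, `√n ≥ m²`; home part as in `ris`).
-/

open Finset

namespace Pool.Agent.HB

/-- the `ℓ₂` norm on a finite set -/
private noncomputable def n2 (C : Finset ℕ) (f : ℕ → ℝ) : ℝ := √(∑ c ∈ C, f c ^ 2)

private theorem n2_eq (C : Finset ℕ) (f : ℕ → ℝ) :
    n2 C f = ‖(WithLp.toLp 2 (fun c : C => f c) : EuclideanSpace ℝ C)‖ := by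
  rw [EuclideanSpace.norm_eq, n2]
  congr 1
  rw [← Finset.sum_coe_sort C (fun c => f c ^ 2)]
  refine Finset.sum_congr rfl fun c _ => ?_
  rw [Real.norm_eq_abs, sq_abs]

private theorem n2_add (C : Finset ℕ) (f g : ℕ → ℝ) :
    n2 C (fun c => f c + g c) ≤ n2 C f + n2 C g := by
  rw [n2_eq, n2_eq, n2_eq]
  exact norm_add_le (WithLp.toLp 2 (fun c : C => f c) : EuclideanSpace ℝ C)
    (WithLp.toLp 2 (fun c : C => g c))

private theorem n2_zero (C : Finset ℕ) : n2 C (fun _ => 0) = 0 := by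
  simp [n2]

private theorem n2_sum {ι : Type} (C : Finset ℕ) (I : Finset ι) (f : ι → ℕ → ℝ) :
    n2 C (fun c => ∑ l ∈ I, f l c) ≤ ∑ l ∈ I, n2 C (f l) := by
  classical
  induction I using Finset.induction_on with
  | empty =>
    simp only [Finset.sum_empty]
    rw [n2_zero]
  | insert l I hl ih =>
    rw [Finset.sum_insert hl]
    have h1 : (fun c => ∑ l ∈ insert l I, f l c) = fun c => f l c + ∑ l ∈ I, f l c := by
      funext c
      rw [Finset.sum_insert hl]
    rw [h1]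
    exact (n2_add C _ _).trans (add_le_add le_rfl ih)

private theorem n2_mono (C : Finset ℕ) {f g : ℕ → ℝ} (h0 : ∀ c ∈ C, 0 ≤ f c)
    (h : ∀ c ∈ C, f c ≤ g c) : n2 C f ≤ n2 C g := by
  refine Real.sqrt_le_sqrt (Finset.sum_le_sum fun c hc => ?_)
  exact pow_le_pow_left₀ (h0 c hc) (h c hc) 2

private theorem n2_mul (C : Finset ℕ) {a : ℝ} (ha : 0 ≤ a) (f : ℕ → ℝ) :
    n2 C (fun c => a * f c) = a * n2 C f := by
  rw [n2, n2]
  have h1 : ∑ c ∈ C, (a * f c) ^ 2 = a ^ 2 * ∑ c ∈ C, f c ^ 2 := by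
    rw [Finset.mul_sum]
    exact Finset.sum_congr rfl fun c _ => by ring
  rw [h1, Real.sqrt_mul (sq_nonneg a), Real.sqrt_sq ha]

private theorem n2_le_sum (C : Finset ℕ) {f : ℕ → ℝ} (h0 : ∀ c ∈ C, 0 ≤ f c) :
    n2 C f ≤ ∑ c ∈ C, f c := by
  have h1 : 0 ≤ ∑ c ∈ C, f c := Finset.sum_nonneg h0
  rw [n2, Real.sqrt_le_left h1, sq, Finset.sum_mul]
  refine Finset.sum_le_sum fun c hc => ?_
  rw [sq]
  exact mul_le_mul_of_nonneg_left (Finset.single_le_sum (f := f) h0 hc) (h0 c hc)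

section ex
variable {p : Par} {K : ℝ} {I : Finset ℕ} {w : ℕ → RV} {Hom : ℕ → Finset ℕ} {ε : ℕ → ℕ → ℝ}

private theorem ex_K (h : RIS p K I w Hom ε) : 0 ≤ K := by
  have := h.eps ∅
  simpa using this

open Classical in
/-- the home part at one code -/
private noncomputable def hmv (p : Par) (I : Finset ℕ) (w : ℕ → RV) (Hom : ℕ → Finset ℕ)
    (c : ℕ) : ℝ :=
  ∑ l ∈ I, if c ∈ Hom l then Tc p c (w l) else 0

open Classical in
private theorem ex_sum_le (h : RIS p K I w Hom ε) (c : ℕ) :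
    ∑ l ∈ I, Tc p c (w l) ≤ (I.card : ℝ) * K / p.m c + ∑ l ∈ I, ε l c + hmv p I w Hom c := by
  have hK := ex_K h
  have hm := par_m_pos p c
  have h1 : ∀ l ∈ I, Tc p c (w l) ≤ K / p.m c + ε l c +
      (if c ∈ Hom l then Tc p c (w l) else 0) := by
    intro l hl
    have h0 : 0 ≤ K / p.m c := by positivity
    have he := h.eps0 l c
    split_ifs with hc
    · linarith
    · have := h.good l hl c hc
      linarith
  refine (Finset.sum_le_sum h1).trans ?_
  rw [Finset.sum_add_distrib, Finset.sum_add_distrib, Finset.sum_const, nsmul_eq_mul, hmv,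
    mul_div_assoc]

open Classical in
/-- at most one term of the home part is not zero -/
private theorem ex_hm_single (h : RIS p K I w Hom ε) (c : ℕ) :
    hmv p I w Hom c = 0 ∨ ∃ l ∈ I, c ∈ Hom l ∧ hmv p I w Hom c = Tc p c (w l) := by
  by_cases hex : ∃ l ∈ I, c ∈ Hom l
  · obtain ⟨l, hl, hc⟩ := hex
    right
    refine ⟨l, hl, hc, ?_⟩
    rw [hmv, Finset.sum_eq_single l]
    · rw [if_pos hc]
    · intro l' hl' hne
      rw [if_neg]
      intro hc'
      exact (Finset.disjoint_left.1 (h.disj l' hl' l hl hne)) hc' hc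
    · intro hn
      exact absurd hl hn
  · left
    push Not at hex
    exact Finset.sum_eq_zero fun l hl => if_neg (hex l hl)

private theorem ex_hm_le (h : RIS p K I w Hom ε) (c : ℕ) : hmv p I w Hom c ≤ K := by
  rcases ex_hm_single h c with h1 | ⟨l, hl, -, h1⟩
  · rw [h1]
    exact ex_K h
  · rw [h1]
    exact (Tc_le_TT c (w l)).trans (h.T l hl)

open Classical in
private theorem ex_hm_nonneg (p : Par) (I : Finset ℕ) (w : ℕ → RV) (Hom : ℕ → Finset ℕ)
    (c : ℕ) : 0 ≤ hmv p I w Hom c := by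
  refine Finset.sum_nonneg fun l _ => ?_
  split_ifs
  · exact Tc_nonneg c (w l)
  · exact le_rfl

private theorem ex_hm_sq (h : RIS p K I w Hom ε) (c : ℕ) :
    hmv p I w Hom c ^ 2 ≤ ∑ l ∈ I, Tc p c (w l) ^ 2 := by
  rcases ex_hm_single h c with h1 | ⟨l, hl, -, h1⟩
  · rw [h1]
    have : 0 ≤ ∑ l ∈ I, Tc p c (w l) ^ 2 := Finset.sum_nonneg fun l _ => sq_nonneg _
    simpa using this
  · rw [h1]
    exact Finset.single_le_sum (f := fun l => Tc p c (w l) ^ 2) (fun l _ => sq_nonneg _) hl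

private theorem ex_hm_n2 (h : RIS p K I w Hom ε) (C : Finset ℕ) :
    n2 C (hmv p I w Hom) ≤ K * √(I.card : ℝ) := by
  have hK := ex_K h
  have h1 : ∑ c ∈ C, hmv p I w Hom c ^ 2 ≤ (I.card : ℝ) * K ^ 2 := by
    calc ∑ c ∈ C, hmv p I w Hom c ^ 2 ≤ ∑ c ∈ C, ∑ l ∈ I, Tc p c (w l) ^ 2 :=
          Finset.sum_le_sum fun c _ => ex_hm_sq h c
      _ = ∑ l ∈ I, ∑ c ∈ C, Tc p c (w l) ^ 2 := Finset.sum_comm
      _ ≤ ∑ l ∈ I, TT p (w l) ^ 2 := Finset.sum_le_sum fun l hl => sum_Tc_sq (h.nn l hl) C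
      _ ≤ ∑ l ∈ I, K ^ 2 := Finset.sum_le_sum fun l hl =>
          pow_le_pow_left₀ (TT_nonneg _) (h.T l hl) 2
      _ = (I.card : ℝ) * K ^ 2 := by rw [Finset.sum_const, nsmul_eq_mul]
  rw [n2]
  refine (Real.sqrt_le_sqrt h1).trans ?_
  rw [Real.sqrt_mul (Nat.cast_nonneg _), Real.sqrt_sq hK, mul_comm]

private theorem ex_eps_le (h : RIS p K I w Hom ε) (c : ℕ) : ∑ l ∈ I, ε l c ≤ K := by
  refine le_trans (Finset.sum_le_sum fun l _ => ?_) (h.eps {c})
  rw [Finset.sum_singleton, Real.sqrt_sq (h.eps0 l c)]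

private theorem ex_eps_n2 (h : RIS p K I w Hom ε) (C : Finset ℕ) :
    n2 C (fun c => ∑ l ∈ I, ε l c) ≤ K :=
  (n2_sum C I ε).trans (h.eps C)

end ex

/-- numerical facts on the parameters -/
private theorem ex_num (p : Par) (c : ℕ) :
    (2 : ℝ) ^ 100 ≤ p.m (c + 1) ∧ (p.m (c + 1)) ^ 5 ≤ (p.n (c + 1) : ℝ) ∧
      (p.n (c + 1) : ℝ) ^ (1 - 1 / (p.N c : ℝ)) = (p.n (c + 1) : ℝ) / p.m (c + 1) ^ 4 ∧
      (p.n (c + 1) : ℝ) ≤ p.m (c + 2) ∧ (p.n c : ℝ) ≤ p.m (c + 1) := by
  have h1 := par_m_ge p (c + 1)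
  have hm1 : (1 : ℝ) ≤ p.m (c + 1) := le_trans (by norm_num) h1
  have hn : (1 : ℝ) ≤ (p.n (c + 1) : ℝ) := by
    have := par_n_pos p (c + 1)
    exact_mod_cast this
  have hn' : (1 : ℝ) ≤ (p.n c : ℝ) := by
    have := par_n_pos p c
    exact_mod_cast this
  refine ⟨h1, ?_, ?_, ?_, ?_⟩
  · exact (pow_le_pow_right₀ hm1 (by norm_num)).trans (par_m_pow_le p c)
  · rw [Real.rpow_sub (by linarith), Real.rpow_one, par_pow_succ]
  · refine le_trans ?_ (par_n_pow_le p (c + 1))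
    exact le_self_pow₀ hn (by norm_num)
  · refine le_trans ?_ (par_n_pow_le p c)
    exact le_self_pow₀ hn' (by norm_num)

/-- the codes `c' ≤ c` -/
private theorem ex_low {p : Par} {K : ℝ} {c : ℕ} {w : ℕ → RV} {Hom : ℕ → Finset ℕ}
    {ε : ℕ → ℕ → ℝ} (h : RIS p K (range (p.n (c + 1))) w Hom ε) {c' : ℕ} (hc : c' ≤ c) :
    Tc p c' (∑ l ∈ range (p.n (c + 1)), w l) ≤
      1 / p.m c' * (5 * K * ((p.n (c + 1) : ℝ) / p.m (c + 1) +
        2 * ((p.n (c + 1) : ℝ) / p.m (c + 1) ^ 4))) + ((p.n c' : ℝ) * K / p.m c' + K + K) := by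
  obtain ⟨hm, hmn, hpow, hnm, hnm'⟩ := ex_num p c
  have hK := ex_K h
  have hm0 := par_m_pos p c'
  have hm1 := par_m_pos p (c + 1)
  refine Tc_le fun γ hγ => ?_
  obtain ⟨g, hg, hgK, rfl⟩ := hγ
  obtain ⟨J, B, hB, hBc, hJ, hJd, hsum⟩ := split_lemma (p.n c') g hg (range (p.n (c + 1))) w h.succ
  have hN : (0 : ℝ) < p.N c := by
    have := par_N_ge p c
    have : 0 < p.N c := by omega
    exact_mod_cast this
  have hN100 : (100 : ℝ) ≤ p.N c := by
    have := par_N_ge p c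
    exact_mod_cast this
  have ha0 : 0 < 1 - 1 / (p.N c : ℝ) := by
    have : 1 / (p.N c : ℝ) ≤ 1 / 100 := one_div_le_one_div_of_le (by norm_num) hN100
    linarith
  have ha1 : 1 - 1 / (p.N c : ℝ) ≤ 1 := by
    have : 0 ≤ 1 / (p.N c : ℝ) := by positivity
    linarith
  -- the subfamilies
  have hcard : ∑ i ∈ range (p.n c'), ((J i).card : ℝ) ≤ p.n (c + 1) := by
    have h1 : ∑ i ∈ range (p.n c'), (J i).card ≤ p.n (c + 1) := by
      rw [← Finset.card_biUnion (fun i _ j _ hij => hJd i j hij)]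
      calc ((range (p.n c')).biUnion J).card ≤ (range (p.n (c + 1))).card := by
            refine Finset.card_le_card ?_
            rw [Finset.biUnion_subset]
            intro i _ l hl
            exact (Finset.mem_sdiff.1 (hJ i hl)).1
        _ = p.n (c + 1) := Finset.card_range _
    exact_mod_cast h1
  have hfirst : ∑ i ∈ range (p.n c'), dot (g i) (∑ l ∈ J i, w l) ≤
      5 * K * ((p.n (c + 1) : ℝ) / p.m (c + 1) + 2 * ((p.n (c + 1) : ℝ) / p.m (c + 1) ^ 4)) := by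
    have h1 : ∀ i ∈ range (p.n c'), dot (g i) (∑ l ∈ J i, w l) ≤
        5 * K * (((J i).card : ℝ) / p.m (c + 1) +
          ((J i).card : ℝ) ^ (1 - 1 / (p.N c : ℝ))) := by
      intro i _
      refine ris_dot c (hgK i) (J i) w Hom ε (h.sub fun l hl => ?_)
      exact (Finset.mem_sdiff.1 (hJ i hl)).1
    refine (Finset.sum_le_sum h1).trans ?_
    rw [← Finset.mul_sum, Finset.sum_add_distrib, ← Finset.sum_div]
    refine mul_le_mul_of_nonneg_left ?_ (by positivity)
    refine add_le_add (div_le_div_of_nonneg_right hcard hm1.le) ?_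
    refine (sum_rpow_le (p.n c') (fun i => ((J i).card : ℝ)) (fun i => Nat.cast_nonneg _)
      ha0 ha1).trans ?_
    have h2 : (1 : ℝ) - (1 - 1 / (p.N c : ℝ)) = 1 / (p.N c : ℝ) := by ring
    rw [h2, ← hpow]
    refine mul_le_mul (par_pow p hc) ?_ (by positivity) (by norm_num)
    exact Real.rpow_le_rpow (Finset.sum_nonneg fun i _ => Nat.cast_nonneg _) hcard ha0.le
  have hsecond : ∑ l ∈ B, dot ((1 / p.m c') • ∑ i ∈ range (p.n c'), g i) (w l) ≤
      (p.n c' : ℝ) * K / p.m c' + K + K := by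
    have hB' := h.sub hB
    have h1 : ∑ l ∈ B, dot ((1 / p.m c') • ∑ i ∈ range (p.n c'), g i) (w l) ≤
        ∑ l ∈ B, Tc p c' (w l) :=
      Finset.sum_le_sum fun l _ => le_Tc ⟨g, hg, hgK, rfl⟩ (w l)
    refine h1.trans ((ex_sum_le hB' c').trans ?_)
    refine add_le_add (add_le_add ?_ (ex_eps_le hB' c')) (ex_hm_le hB' c')
    refine div_le_div_of_nonneg_right ?_ hm0.le
    refine mul_le_mul_of_nonneg_right ?_ hK
    exact_mod_cast hBc
  have h3 : dot ((1 / p.m c') • ∑ i ∈ range (p.n c'), g i) (∑ l ∈ range (p.n (c + 1)), w l) =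
      1 / p.m c' * ∑ i ∈ range (p.n c'), dot (g i) (∑ l ∈ J i, w l) +
        ∑ l ∈ B, dot ((1 / p.m c') • ∑ i ∈ range (p.n c'), g i) (w l) := by
    rw [dot_smul_left, dot_sum_left, hsum, mul_add, Finset.mul_sum (s := B)]
    congr 1
    refine Finset.sum_congr rfl fun l _ => ?_
    rw [dot_smul_left, dot_sum_left]
  rw [h3]
  refine add_le_add (mul_le_mul_of_nonneg_left hfirst (by positivity)) hsecond

theorem exact_avg {p : Par} {K : ℝ} {c : ℕ} {w : ℕ → RV} {Hom : ℕ → Finset ℕ} {ε : ℕ → ℕ → ℝ}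
    (h : RIS p K (range (p.n (c + 1))) w Hom ε) :
    TT p ((p.m (c + 1) / (p.n (c + 1) : ℝ)) • ∑ l ∈ range (p.n (c + 1)), w l) ≤ 10 * K ∧
    (∀ c' ≤ c, Tc p c' ((p.m (c + 1) / (p.n (c + 1) : ℝ)) • ∑ l ∈ range (p.n (c + 1)), w l) ≤
      7 * K / p.m c') ∧
    ∀ C : Finset ℕ, (∀ c' ∈ C, c + 1 < c') →
      √(∑ c' ∈ C, Tc p c' ((p.m (c + 1) / (p.n (c + 1) : ℝ)) •
        ∑ l ∈ range (p.n (c + 1)), w l) ^ 2) ≤ 3 * K / p.m (c + 1) := by
  obtain ⟨hm, hmn, hpow, hnm, hnm'⟩ := ex_num p c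
  have hK := ex_K h
  have hm0 := par_m_pos p (c + 1)
  have hm2 := par_m_pos p (c + 2)
  obtain ⟨m, hmd⟩ : ∃ m, m = p.m (c + 1) := ⟨_, rfl⟩
  obtain ⟨n, hnd⟩ : ∃ n : ℝ, n = (p.n (c + 1) : ℝ) := ⟨_, rfl⟩
  rw [← hmd] at hm hmn hpow hnm' hm0
  rw [← hnd] at hmn hpow hnm
  have hm1 : 1 ≤ m := le_trans (by norm_num) hm
  have hm10 : 100 ≤ m := le_trans (by norm_num) hm
  have hn0 : 0 < n := lt_of_lt_of_le (by positivity) hmn
  have hmn0 : 0 ≤ m / n := by positivity
  have hm3 : 100 ≤ m ^ 3 := hm10.trans (le_self_pow₀ hm1 (by norm_num))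
  refine ⟨?_, ?_, ?_⟩
  · rw [← hmd, ← hnd, TT_smul hmn0]
    have h1 := ris h c
    rw [Finset.card_range, ← hmd, ← hnd, hpow] at h1
    calc m / n * TT p (∑ l ∈ range (p.n (c + 1)), w l)
        ≤ m / n * (5 * K * (n / m + n / m ^ 4)) := mul_le_mul_of_nonneg_left h1 hmn0
      _ = 5 * K * (1 + 1 / m ^ 3) := by
          field_simp
      _ ≤ 5 * K * 2 := by
          refine mul_le_mul_of_nonneg_left ?_ (by positivity)
          have : 1 / m ^ 3 ≤ 1 := by
            rw [div_le_one (by positivity)]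
            linarith
          linarith
      _ = 10 * K := by ring
  · intro c' hc
    rw [← hmd, ← hnd, Tc_smul hmn0]
    have hc0 := par_m_pos p c'
    have h1 := ex_low h hc
    rw [← hmd, ← hnd] at h1
    obtain ⟨q, hq⟩ : ∃ q, q = p.m c' := ⟨_, rfl⟩
    obtain ⟨P, hP⟩ : ∃ P : ℝ, P = (p.n c' : ℝ) := ⟨_, rfl⟩
    rw [← hq] at h1 hc0 ⊢
    rw [← hP] at h1
    have hPm : P ≤ m := by
      refine le_trans ?_ hnm'
      rw [hP]
      exact_mod_cast par_n_mono p hc
    have hqm : q ≤ m := by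
      refine le_trans ?_ hPm
      rw [hq, hP]
      exact par_m_le_n p c'
    have hP0 : 0 ≤ P := by rw [hP]; exact Nat.cast_nonneg _
    calc m / n * Tc p c' (∑ l ∈ range (p.n (c + 1)), w l)
        ≤ m / n * (1 / q * (5 * K * (n / m + 2 * (n / m ^ 4))) + (P * K / q + K + K)) :=
          mul_le_mul_of_nonneg_left h1 hmn0
      _ = K / q * (5 + 10 / m ^ 3 + m * P / n + 2 * (m * q / n)) := by
          field_simp
          ring
      _ ≤ K / q * (5 + 1 / 10 + 1 / 10 + 2 * (1 / 10)) := by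
          refine mul_le_mul_of_nonneg_left ?_ (by positivity)
          have e1 : 10 / m ^ 3 ≤ 1 / 10 := by
            rw [div_le_div_iff₀ (by positivity) (by norm_num)]
            linarith
          have e2 : m * m / n ≤ 1 / 10 := by
            rw [div_le_div_iff₀ hn0 (by norm_num)]
            calc m * m * 10 ≤ m * m * m ^ 3 := by
                  refine mul_le_mul_of_nonneg_left ?_ (by positivity)
                  linarith
              _ = m ^ 5 := by ring
              _ ≤ 1 * n := by linarith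
          have e3 : m * P / n ≤ m * m / n := by
            refine div_le_div_of_nonneg_right ?_ hn0.le
            exact mul_le_mul_of_nonneg_left hPm hm0.le
          have e4 : m * q / n ≤ m * m / n := by
            refine div_le_div_of_nonneg_right ?_ hn0.le
            exact mul_le_mul_of_nonneg_left hqm hm0.le
          linarith
      _ ≤ K / q * 7 := by
          refine mul_le_mul_of_nonneg_left (by norm_num) (by positivity)
      _ = 7 * K / q := by ring
  · intro C hC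
    rw [← hmd, ← hnd]
    have h1 : n2 C (fun c' => Tc p c' ((m / n) • ∑ l ∈ range (p.n (c + 1)), w l)) ≤
        m / n * (n * K * (2 / p.m (c + 2)) + K + K * √n) := by
      have h2 : n2 C (fun c' => Tc p c' ((m / n) • ∑ l ∈ range (p.n (c + 1)), w l)) =
          m / n * n2 C (fun c' => Tc p c' (∑ l ∈ range (p.n (c + 1)), w l)) := by
        rw [← n2_mul C hmn0]
        congr 1
        funext c'
        rw [Tc_smul hmn0]
      rw [h2]
      refine mul_le_mul_of_nonneg_left ?_ hmn0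
      have h3 : n2 C (fun c' => Tc p c' (∑ l ∈ range (p.n (c + 1)), w l)) ≤
          n2 C (fun c' => (n * K * (1 / p.m c') + ∑ l ∈ range (p.n (c + 1)), ε l c') +
            hmv p (range (p.n (c + 1))) w Hom c') := by
        refine n2_mono C (fun c' _ => Tc_nonneg c' _) fun c' _ => ?_
        refine (Tc_sum_le c' _ _).trans ((ex_sum_le h c').trans (le_of_eq ?_))
        rw [Finset.card_range, ← hnd]
        ring
      refine h3.trans ((n2_add C _ _).trans (add_le_add ((n2_add C _ _).trans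
        (add_le_add ?_ (ex_eps_n2 h C))) ?_))
      · have h4 : n2 C (fun c' => n * K * (1 / p.m c')) = n * K * n2 C (fun c' => 1 / p.m c') :=
          n2_mul C (by positivity) _
        rw [h4]
        refine mul_le_mul_of_nonneg_left ?_ (by positivity)
        refine (n2_le_sum C fun c' _ => ?_).trans (par_sum_tail p C (c + 2) fun c' hc' => ?_)
        · have := par_m_pos p c'
          positivity
        · have := hC c' hc'
          omega
      · have h5 := ex_hm_n2 h C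
        rw [Finset.card_range, ← hnd] at h5
        exact h5
    have h6 : m / n * (n * K * (2 / p.m (c + 2)) + K + K * √n) ≤ 3 * K / m := by
      have hm2n : m ^ 2 * 2 ≤ n := by
        calc m ^ 2 * 2 ≤ m ^ 2 * m ^ 3 := by
              refine mul_le_mul_of_nonneg_left ?_ (by positivity)
              linarith
          _ = m ^ 5 := by ring
          _ ≤ n := hmn
      have hsq : m ^ 2 ≤ √n := by
        refine Real.le_sqrt_of_sq_le ?_
        calc (m ^ 2) ^ 2 = m ^ 4 := by ring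
          _ ≤ m ^ 5 := pow_le_pow_right₀ hm1 (by norm_num)
          _ ≤ n := hmn
      have hsq0 : 0 < √n := lt_of_lt_of_le (by positivity) hsq
      have e1 : m / n * (n * K * (2 / p.m (c + 2))) ≤ K / m := by
        have : m / n * (n * K * (2 / p.m (c + 2))) = K * (2 * m) / p.m (c + 2) := by
          field_simp
        rw [this, div_le_div_iff₀ hm2 hm0]
        calc K * (2 * m) * m = K * (m ^ 2 * 2) := by ring
          _ ≤ K * p.m (c + 2) := mul_le_mul_of_nonneg_left (hm2n.trans hnm) hK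
      have e2 : m / n * K ≤ K / m := by
        rw [div_mul_eq_mul_div, div_le_div_iff₀ hn0 hm0]
        have : m ^ 2 ≤ n := by nlinarith
        calc m * K * m = K * m ^ 2 := by ring
          _ ≤ K * n := mul_le_mul_of_nonneg_left this hK
      have e3 : m / n * (K * √n) ≤ K / m := by
        have hnn : n = √n * √n := (Real.mul_self_sqrt hn0.le).symm
        have : m / n * (K * √n) = K * m / √n := by
          rw [div_mul_eq_mul_div, div_eq_div_iff hn0.ne' hsq0.ne']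
          calc m * (K * √n) * √n = K * m * (√n * √n) := by ring
            _ = K * m * n := by rw [← hnn]
        rw [this, div_le_div_iff₀ hsq0 hm0]
        calc K * m * m = K * m ^ 2 := by ring
          _ ≤ K * √n := mul_le_mul_of_nonneg_left hsq hK
      calc m / n * (n * K * (2 / p.m (c + 2)) + K + K * √n)
          = m / n * (n * K * (2 / p.m (c + 2))) + m / n * K + m / n * (K * √n) := by ring
        _ ≤ K / m + K / m + K / m := add_le_add (add_le_add e1 e2) e3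
        _ = 3 * K / m := by ring
    exact h1.trans h6

end Pool.Agent.HB
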