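import Pool.Agent.HB.T.Par
import Pool.Agent.HB.T.Dot

/-!
# HB.T.Basic: the norming set `KK`, the norms `TT` and `Tc`

PROOFS.
* `kk_nonneg`, `kk_res`: induction on `KK` (for `kk_res` the restriction of the step combination is the step
  combination of the restrictions, `Lt` is inherited by restrictions; for `single i` it is `single i 1` or `0`).
* `kk_le_one`: induction; in the step case, for each `c` at most one `g c j` has `i` in its support
  (`Lt (g c j) (g c j')` for `j < j'`), so `∑_j (g c j) i ≤ 1`; `b c ≤ 1` (`b c ^2 ≤ ∑ b^2 ≤ 1`), so the coordinate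
  is `≤ ∑_{c∈C} 1/m c ≤ 1/20 ≤ 1` (`par_sum_inv`).
* `kkc_kk`: `C = {c}`, `b = Pi.single c 1` (extend `g` by `0` for other codes; `KK.zero`).
* boundedness: `0 ≤ dot γ y ≤ ∑_{i ∈ y.support} |y i|` by `kk_le_one`.
* everything else: `csSup` manipulations.
* `kkc_le`: coordinates of `γ ∈ KKc c` are `≤ 1 / m c` (at most one `g j` has `i` in its support).
* `sum_Tc_sq`: let `t c = Tc c y`, `s = √(∑ t²)`; if `s = 0` trivial; `b c = t c / s` for `c ∈ C` (`0` else), choose for
  `δ > 0` elements `γ c ∈ KKc c` with `dot (γ c) y ≥ t c - δ`.  By `KK.step` the vector `∑_{c∈C} b c • γ c` is in `KK`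
  (`(b c / m c) • ∑ g = b c • ((1/m c) • ∑ g)`), so `TT y ≥ ∑ b c (t c - δ) ≥ s - δ |C|`.  Let `δ → 0`.
-/

open Finset

namespace Pool.Agent.HB

variable {p : Par}

/-- coordinates of the step combination -/
theorem kk_step_apply (p : Par) (C : Finset ℕ) (b : ℕ → ℝ) (g : ℕ → ℕ → RV) (i : ℕ) :
    (∑ c ∈ C, (b c / p.m c) • ∑ j ∈ range (p.n c), g c j) i =
      ∑ c ∈ C, (b c / p.m c) * ∑ j ∈ range (p.n c), g c j i := by
  rw [Finsupp.finsetSum_apply]
  refine Finset.sum_congr rfl fun c _ => ?_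
  rw [Finsupp.smul_apply, Finsupp.finsetSum_apply, smul_eq_mul]

theorem kk_nonneg {γ : RV} (h : KK p γ) : 0 ≤ γ := by
  induction h with
  | zero => exact le_rfl
  | single i =>
    intro j
    rw [Finsupp.single_apply]
    split_ifs
    · exact zero_le_one
    · exact le_rfl
  | step C b g hb hb2 hs hg ih =>
    intro i
    rw [kk_step_apply]
    refine Finset.sum_nonneg fun c _ => mul_nonneg (div_nonneg (hb c) (par_m_pos p c).le) ?_
    exact Finset.sum_nonneg fun j _ => ih c j i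

theorem lt_res {α β : Type} [Zero α] [Zero β] {x : ℕ →₀ α} {y : ℕ →₀ β} (h : Lt x y)
    (E E' : Set ℕ) : Lt (res E x) (res E' y) := fun i hi j hj =>
  h i ((res_support E x).1 hi).2 j ((res_support E' y).1 hj).2

theorem lt_zero_zero {α β : Type} [Zero α] [Zero β] : Lt (0 : ℕ →₀ α) (0 : ℕ →₀ β) := by
  intro i hi
  simp at hi

theorem kk_res {γ : RV} (h : KK p γ) (E : Set ℕ) : KK p (res E γ) := by
  induction h with
  | zero =>
    rw [res_zero]
    exact KK.zero
  | single i =>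
    by_cases hi : i ∈ E
    · rw [res_eq_self]
      · exact KK.single i
      · intro j hj
        have := Finsupp.support_single_subset hj
        rw [Finset.mem_singleton] at this
        rwa [this]
    · rw [res_eq_zero]
      · exact KK.zero
      · intro j hj
        have := Finsupp.support_single_subset hj
        rw [Finset.mem_singleton] at this
        rwa [this]
  | step C b g hb hb2 hs hg ih =>
    have e : res E (∑ c ∈ C, (b c / p.m c) • ∑ i ∈ range (p.n c), g c i) =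
        ∑ c ∈ C, (b c / p.m c) • ∑ i ∈ range (p.n c), res E (g c i) := by
      rw [res_sum]
      refine Finset.sum_congr rfl fun c _ => ?_
      rw [res_smul_real, res_sum]
    rw [e]
    exact KK.step C b (fun c i => res E (g c i)) hb hb2
      (fun c i j hij => lt_res (hs c i j hij) E E) ih

/-- at most one nonzero summand -/
theorem sum_le_of_lt (g : ℕ → RV) (hs : ∀ i j, i < j → Lt (g i) (g j)) (i : ℕ)
    (h1 : ∀ j, g j i ≤ 1) (n : ℕ) : ∑ j ∈ range n, g j i ≤ 1 := by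
  by_cases h : ∃ j ∈ range n, g j i ≠ 0
  · obtain ⟨j, hj, hji⟩ := h
    rw [Finset.sum_eq_single_of_mem j hj]
    · exact h1 j
    · intro k _ hkj
      by_contra hk
      rcases lt_or_gt_of_ne hkj with h2 | h2
      · exact lt_irrefl _ (hs k j h2 i (Finsupp.mem_support_iff.2 hk) i
          (Finsupp.mem_support_iff.2 hji))
      · exact lt_irrefl _ (hs j k h2 i (Finsupp.mem_support_iff.2 hji) i
          (Finsupp.mem_support_iff.2 hk))
  · push Not at h
    rw [Finset.sum_eq_zero h]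
    exact zero_le_one

theorem kk_le_one {γ : RV} (h : KK p γ) (i : ℕ) : γ i ≤ 1 := by
  induction h with
  | zero => exact zero_le_one
  | single j =>
    rw [Finsupp.single_apply]
    split_ifs
    · exact le_rfl
    · exact zero_le_one
  | step C b g hb hb2 hs hg ih =>
    rw [kk_step_apply]
    have h1 : ∀ c ∈ C, (b c / p.m c) * ∑ j ∈ range (p.n c), g c j i ≤ 1 / p.m c := by
      intro c hc
      have hbc : b c ≤ 1 := by
        have h2 : b c ^ 2 ≤ 1 :=
          (Finset.single_le_sum (f := fun c => b c ^ 2) (fun c _ => sq_nonneg _) hc).trans hb2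
        have := hb c
        nlinarith
      have h3 := sum_le_of_lt (g c) (hs c) i (fun j => ih c j) (p.n c)
      have hm := par_m_pos p c
      calc (b c / p.m c) * ∑ j ∈ range (p.n c), g c j i ≤ (b c / p.m c) * 1 :=
            mul_le_mul_of_nonneg_left h3 (div_nonneg (hb c) hm.le)
        _ = b c / p.m c := mul_one _
        _ ≤ 1 / p.m c := div_le_div_of_nonneg_right hbc hm.le
    exact (Finset.sum_le_sum h1).trans ((par_sum_inv p C).trans (by norm_num))

theorem kkc_kk {c : ℕ} {γ : RV} (h : γ ∈ KKc p c) : KK p γ := by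
  obtain ⟨g, hs, hg, rfl⟩ := h
  have h1 := KK.step (p := p) {c} (fun c' => if c' = c then 1 else 0)
    (fun c' i => if c' = c then g i else 0) (fun c' => by
      split_ifs
      · exact zero_le_one
      · exact le_rfl) (by simp) (fun c' i j hij => by
      split_ifs
      · exact hs i j hij
      · exact lt_zero_zero) (fun c' i => by
      split_ifs
      · exact hg i
      · exact KK.zero)
  simpa using h1

theorem kkc_zero (c : ℕ) : (0 : RV) ∈ KKc p c := by
  refine ⟨fun _ => 0, fun _ _ _ => lt_zero_zero, fun _ => KK.zero, ?_⟩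
  rw [Finset.sum_const_zero, smul_zero]

theorem kkc_res {c : ℕ} {γ : RV} (h : γ ∈ KKc p c) (E : Set ℕ) : res E γ ∈ KKc p c := by
  obtain ⟨g, hs, hg, rfl⟩ := h
  refine ⟨fun i => res E (g i), fun i j hij => lt_res (hs i j hij) E E, fun i => kk_res (hg i) E, ?_⟩
  rw [res_smul_real, res_sum]

theorem kkc_le {c : ℕ} {γ : RV} (h : γ ∈ KKc p c) (i : ℕ) : γ i ≤ 1 / p.m c := by
  obtain ⟨g, hs, hg, rfl⟩ := h
  rw [Finsupp.smul_apply, Finsupp.finsetSum_apply, smul_eq_mul]
  have h1 := sum_le_of_lt g hs i (fun j => kk_le_one (hg j) i) (p.n c)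
  have h2 : 0 ≤ 1 / p.m c := div_nonneg zero_le_one (par_m_pos p c).le
  calc (1 / p.m c) * ∑ j ∈ range (p.n c), g j i ≤ (1 / p.m c) * 1 :=
        mul_le_mul_of_nonneg_left h1 h2
    _ = 1 / p.m c := mul_one _

theorem kk_dot_le {γ : RV} (h : KK p γ) (y : RV) : dot γ y ≤ ∑ i ∈ y.support, |y i| := by
  rw [dot_eq_sum' γ y y.support (Finset.Subset.refl _)]
  refine Finset.sum_le_sum fun i _ => ?_
  have h1 := kk_nonneg h i
  have h1' : 0 ≤ γ i := h1
  calc γ i * y i ≤ γ i * |y i| := mul_le_mul_of_nonneg_left (le_abs_self _) h1'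
    _ ≤ 1 * |y i| := mul_le_mul_of_nonneg_right (kk_le_one h i) (abs_nonneg _)
    _ = |y i| := one_mul _

theorem kk_bdd (y : RV) : BddAbove ((fun γ => dot γ y) '' {γ | KK p γ}) :=
  ⟨∑ i ∈ y.support, |y i|, by
    rintro _ ⟨γ, h, rfl⟩
    exact kk_dot_le h y⟩

theorem kkc_bdd (c : ℕ) (y : RV) : BddAbove ((fun γ => dot γ y) '' KKc p c) :=
  ⟨∑ i ∈ y.support, |y i|, by
    rintro _ ⟨γ, h, rfl⟩
    exact kk_dot_le (kkc_kk h) y⟩

theorem le_TT {γ : RV} (h : KK p γ) (y : RV) : dot γ y ≤ TT p y :=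
  le_csSup (kk_bdd y) ⟨γ, h, rfl⟩

theorem TT_le {y : RV} {A : ℝ} (h : ∀ γ, KK p γ → dot γ y ≤ A) : TT p y ≤ A := by
  refine csSup_le ⟨dot 0 y, 0, KK.zero, rfl⟩ ?_
  rintro _ ⟨γ, hγ, rfl⟩
  exact h γ hγ

theorem TT_exists (y : RV) {ε : ℝ} (hε : 0 < ε) : ∃ γ, KK p γ ∧ TT p y - ε ≤ dot γ y := by
  have h1 : TT p y - ε < sSup ((fun γ => dot γ y) '' {γ | KK p γ}) := by
    have : TT p y = sSup ((fun γ => dot γ y) '' {γ | KK p γ}) := rfl
    linarith
  have hne : ((fun γ => dot γ y) '' {γ | KK p γ}).Nonempty := ⟨dot 0 y, 0, KK.zero, rfl⟩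
  obtain ⟨_, ⟨γ, hγ, rfl⟩, h2⟩ := exists_lt_of_lt_csSup hne h1
  exact ⟨γ, hγ, h2.le⟩

theorem TT_nonneg (y : RV) : 0 ≤ TT p y := by
  have := le_TT (p := p) KK.zero y
  rwa [dot_zero_left] at this

theorem coord_le_TT (y : RV) (i : ℕ) : y i ≤ TT p y := by
  have := le_TT (p := p) (KK.single i) y
  rwa [dot_single_left, one_mul] at this

theorem TT_add_le (y z : RV) : TT p (y + z) ≤ TT p y + TT p z := by
  refine TT_le fun γ h => ?_
  rw [dot_add_right]
  exact add_le_add (le_TT h y) (le_TT h z)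

theorem TT_zero : TT p 0 = 0 := by
  refine le_antisymm (TT_le fun γ _ => ?_) (TT_nonneg 0)
  rw [dot_zero_right]

theorem TT_sum_le {ι : Type} (s : Finset ι) (y : ι → RV) :
    TT p (∑ i ∈ s, y i) ≤ ∑ i ∈ s, TT p (y i) := by
  refine TT_le fun γ h => ?_
  rw [dot_sum_right]
  exact Finset.sum_le_sum fun i _ => le_TT h (y i)

theorem TT_smul {a : ℝ} (ha : 0 ≤ a) (y : RV) : TT p (a • y) = a * TT p y := by
  refine le_antisymm (TT_le fun γ h => ?_) ?_
  · rw [dot_smul_right]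
    exact mul_le_mul_of_nonneg_left (le_TT h y) ha
  · rcases ha.eq_or_lt with h0 | h0
    · rw [← h0, zero_mul]
      exact TT_nonneg _
    · have h1 : TT p y ≤ TT p (a • y) / a := by
        refine TT_le fun γ h => ?_
        rw [le_div_iff₀ h0, mul_comm, ← dot_smul_right]
        exact le_TT h _
      rw [le_div_iff₀ h0, mul_comm] at h1
      exact h1

theorem TT_mono {y z : RV} (h : y ≤ z) : TT p y ≤ TT p z :=
  TT_le fun _ hγ => (dot_mono_right (kk_nonneg hγ) h).trans (le_TT hγ z)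

theorem TT_le_sum {y : RV} (hy : 0 ≤ y) : TT p y ≤ ∑ i ∈ y.support, y i := by
  refine TT_le fun γ h => (kk_dot_le h y).trans (le_of_eq ?_)
  exact Finset.sum_congr rfl fun i _ => abs_of_nonneg (hy i)

theorem TT_res_le {y : RV} (hy : 0 ≤ y) (E : Set ℕ) : TT p (res E y) ≤ TT p y :=
  TT_mono (res_le E hy)

theorem TT_single (i : ℕ) : TT p (Finsupp.single i 1) = 1 := by
  refine le_antisymm (TT_le fun γ h => ?_) ?_
  · rw [dot_single_right, mul_one]
    exact kk_le_one h i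
  · have := coord_le_TT (p := p) (Finsupp.single i 1) i
    rwa [Finsupp.single_eq_same] at this

theorem le_Tc {c : ℕ} {γ : RV} (h : γ ∈ KKc p c) (y : RV) : dot γ y ≤ Tc p c y :=
  le_csSup (kkc_bdd c y) ⟨γ, h, rfl⟩

theorem Tc_le {c : ℕ} {y : RV} {A : ℝ} (h : ∀ γ ∈ KKc p c, dot γ y ≤ A) : Tc p c y ≤ A := by
  refine csSup_le ⟨dot 0 y, 0, kkc_zero c, rfl⟩ ?_
  rintro _ ⟨γ, hγ, rfl⟩
  exact h γ hγ

theorem Tc_exists (c : ℕ) (y : RV) {ε : ℝ} (hε : 0 < ε) :
    ∃ γ ∈ KKc p c, Tc p c y - ε ≤ dot γ y := by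
  have h1 : Tc p c y - ε < sSup ((fun γ => dot γ y) '' KKc p c) := by
    have : Tc p c y = sSup ((fun γ => dot γ y) '' KKc p c) := rfl
    linarith
  have hne : ((fun γ => dot γ y) '' KKc p c).Nonempty := ⟨dot 0 y, 0, kkc_zero c, rfl⟩
  obtain ⟨_, ⟨γ, hγ, rfl⟩, h2⟩ := exists_lt_of_lt_csSup hne h1
  exact ⟨γ, hγ, h2.le⟩

theorem Tc_nonneg (c : ℕ) (y : RV) : 0 ≤ Tc p c y := by
  have := le_Tc (p := p) (kkc_zero c) y
  rwa [dot_zero_left] at this

theorem Tc_le_TT (c : ℕ) (y : RV) : Tc p c y ≤ TT p y :=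
  Tc_le fun _ h => le_TT (kkc_kk h) y

theorem Tc_add_le (c : ℕ) (y z : RV) : Tc p c (y + z) ≤ Tc p c y + Tc p c z := by
  refine Tc_le fun γ h => ?_
  rw [dot_add_right]
  exact add_le_add (le_Tc h y) (le_Tc h z)

theorem Tc_sum_le {ι : Type} (c : ℕ) (s : Finset ι) (y : ι → RV) :
    Tc p c (∑ i ∈ s, y i) ≤ ∑ i ∈ s, Tc p c (y i) := by
  refine Tc_le fun γ h => ?_
  rw [dot_sum_right]
  exact Finset.sum_le_sum fun i _ => le_Tc h (y i)

theorem Tc_smul {a : ℝ} (ha : 0 ≤ a) (c : ℕ) (y : RV) : Tc p c (a • y) = a * Tc p c y := by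
  refine le_antisymm (Tc_le fun γ h => ?_) ?_
  · rw [dot_smul_right]
    exact mul_le_mul_of_nonneg_left (le_Tc h y) ha
  · rcases ha.eq_or_lt with h0 | h0
    · rw [← h0, zero_mul]
      exact Tc_nonneg _ _
    · have h1 : Tc p c y ≤ Tc p c (a • y) / a := by
        refine Tc_le fun γ h => ?_
        rw [le_div_iff₀ h0, mul_comm, ← dot_smul_right]
        exact le_Tc h _
      rw [le_div_iff₀ h0, mul_comm] at h1
      exact h1

theorem Tc_mono {y z : RV} (c : ℕ) (h : y ≤ z) : Tc p c y ≤ Tc p c z :=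
  Tc_le fun _ hγ => (dot_mono_right (kk_nonneg (kkc_kk hγ)) h).trans (le_Tc hγ z)

theorem Tc_le_sum {y : RV} (hy : 0 ≤ y) (c : ℕ) :
    Tc p c y ≤ (1 / p.m c) * ∑ i ∈ y.support, y i := by
  refine Tc_le fun γ h => ?_
  rw [dot_eq_sum' γ y y.support (Finset.Subset.refl _), Finset.mul_sum]
  exact Finset.sum_le_sum fun i _ => mul_le_mul_of_nonneg_right (kkc_le h i) (hy i)

theorem sum_Tc_sq {y : RV} (hy : 0 ≤ y) (C : Finset ℕ) :
    ∑ c ∈ C, Tc p c y ^ 2 ≤ TT p y ^ 2 := by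
  set s := √(∑ c ∈ C, Tc p c y ^ 2) with hs
  have hS : 0 ≤ ∑ c ∈ C, Tc p c y ^ 2 := Finset.sum_nonneg fun c _ => sq_nonneg _
  have hs2 : s ^ 2 = ∑ c ∈ C, Tc p c y ^ 2 := Real.sq_sqrt hS
  have hs0 : 0 ≤ s := Real.sqrt_nonneg _
  rw [← hs2]
  refine pow_le_pow_left₀ hs0 ?_ 2
  rcases hs0.eq_or_lt with h0 | h0
  · rw [← h0]
    exact TT_nonneg _
  refine le_of_forall_pos_le_add fun ε hε => ?_
  set δ := ε / (C.card + 1) with hδ
  have hC0 : (0 : ℝ) ≤ C.card := Nat.cast_nonneg _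
  have hδ0 : 0 < δ := div_pos hε (by linarith)
  have hδC : δ * C.card ≤ ε := by
    rw [hδ, div_mul_eq_mul_div, div_le_iff₀ (by linarith)]
    nlinarith
  have hex := fun c => Tc_exists (p := p) c y hδ0
  choose γ hγ hγy using hex
  choose g hgs hg hγg using hγ
  set b : ℕ → ℝ := fun c => if c ∈ C then Tc p c y / s else 0 with hb
  have hb0 : ∀ c, 0 ≤ b c := by
    intro c
    simp only [hb]
    split_ifs
    · exact div_nonneg (Tc_nonneg _ _) hs0
    · exact le_rfl
  have hbC : ∀ c ∈ C, b c = Tc p c y / s := fun c hc => if_pos hc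
  have hb2 : ∑ c ∈ C, b c ^ 2 = 1 := by
    rw [Finset.sum_congr rfl fun c hc => by rw [hbC c hc, div_pow], ← Finset.sum_div, ← hs2]
    exact div_self (pow_ne_zero 2 h0.ne')
  have hb1 : ∀ c ∈ C, b c ≤ 1 := by
    intro c hc
    have h2 : b c ^ 2 ≤ 1 :=
      (Finset.single_le_sum (f := fun c => b c ^ 2) (fun c _ => sq_nonneg _) hc).trans hb2.le
    have := hb0 c
    nlinarith
  have hK := KK.step (p := p) C b g hb0 hb2.le hgs hg
  have e : ∑ c ∈ C, (b c / p.m c) • ∑ i ∈ range (p.n c), g c i = ∑ c ∈ C, b c • γ c := by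
    refine Finset.sum_congr rfl fun c _ => ?_
    rw [hγg c, smul_smul]
    congr 1
    ring
  rw [e] at hK
  have h1 := le_TT hK y
  rw [dot_sum_left] at h1
  have h2 : s - δ * C.card ≤ ∑ c ∈ C, dot (b c • γ c) y := by
    have h3 : ∑ c ∈ C, b c * Tc p c y = s := by
      rw [Finset.sum_congr rfl fun c hc => by
        rw [hbC c hc, div_mul_eq_mul_div, ← pow_two], ← Finset.sum_div, ← hs2, pow_two]
      exact mul_div_cancel_right₀ s h0.ne'
    have h4 : ∑ c ∈ C, (b c * Tc p c y - δ) = s - δ * C.card := by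
      rw [Finset.sum_sub_distrib, h3, Finset.sum_const, nsmul_eq_mul, mul_comm]
    rw [← h4]
    refine Finset.sum_le_sum fun c hc => ?_
    rw [dot_smul_left]
    have h5 := mul_le_mul_of_nonneg_left (hγy c) (hb0 c)
    have h6 : b c * δ ≤ 1 * δ := mul_le_mul_of_nonneg_right (hb1 c hc) hδ0.le
    linarith
  linarith

end Pool.Agent.HB
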