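import Pool.Agent.HB.Defs

/-!
# HB.T.Par: elementary facts on the parameters

PROOFS.  `N c ≥ 100`, `M c ≥ 100` by cases/induction (`N (c+1) = 4 N_c M_{c+1} ≥ N c`,
`M (c+1) = 2^(20 N_c) ≥ 2^2000`; do NOT let Lean evaluate such powers, use monotonicity lemmas such as
`Nat.lt_two_pow_self`, `2^(20 N) = (2^N)^20 ≥ ...`).
`1000 * N ≤ 2^(20 N)`: `2^(20 N) = 2^(10 N) * 2^(10 N) ≥ 1024 * N` (`2^(10 N) ≥ 1024` for `N ≥ 1`, `2^(10 N) > 10 N ≥ N`).
Sums: `M` is strictly increasing so `M (c0 + i) ≥ M c0 + i`, and `∑ 2^{-(M c0 + i)} ≤ 2 · 2^{-M c0}`; an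
injective reindexing (for a finite set `C` with all elements `≥ c0`, `∑_{c∈C} 1/m c ≤ ∑_{c∈ Ico c0 (max+1)} 1/m c`).
`par_sum_inv`: `c0 = 0`, `2/2^100 ≤ 1/20`.
`par_pow`: `(2^{N'})^{1/N} = 2^{N'/N} ≤ 2` for `N' ≤ N`.  `par_pow_succ`: `(2^{4 N M})^{1/N} = 2^{4M} = (2^M)^4`.
-/

namespace Pool.Agent.HB

private def parAux : ℕ → ℕ × ℕ
  | 0 => (100, 100)
  | c + 1 => (2 ^ (20 * (parAux c).2), 4 * (parAux c).2 * 2 ^ (20 * (parAux c).2))

theorem par_nonempty : Nonempty Par := by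
  refine ⟨⟨fun c => (parAux c).1, fun c => (parAux c).2, rfl, rfl, fun c => rfl, fun c => rfl⟩⟩

variable (p : Par)

theorem par_N_ge (c : ℕ) : 100 ≤ p.N c := by
  induction c with
  | zero => rw [p.hN0]
  | succ c ih =>
    rw [p.hN, p.hM]
    have h1 : 1 ≤ 2 ^ (20 * p.N c) := Nat.one_le_two_pow
    calc 100 ≤ p.N c := ih
      _ = p.N c * 1 := (mul_one _).symm
      _ ≤ 4 * p.N c * 2 ^ (20 * p.N c) := Nat.mul_le_mul (by omega) h1

theorem par_M_succ_ge (c : ℕ) : 1000 * p.N c ≤ p.M (c + 1) := by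
  rw [p.hM]
  have hN := par_N_ge p c
  have h1 : 2 ^ (20 * p.N c) = 2 ^ (10 * p.N c) * 2 ^ (10 * p.N c) := by
    rw [← pow_add]
    congr 1
    omega
  have h2 : 10 * p.N c < 2 ^ (10 * p.N c) := Nat.lt_two_pow_self
  rw [h1]
  calc 1000 * p.N c ≤ 2 ^ (10 * p.N c) * p.N c := Nat.mul_le_mul_right _ (by omega)
    _ ≤ 2 ^ (10 * p.N c) * 2 ^ (10 * p.N c) := Nat.mul_le_mul_left _ (by omega)

theorem par_M_ge (c : ℕ) : 100 ≤ p.M c := by
  rcases c with _ | c
  · rw [p.hM0]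
  · have h1 := par_M_succ_ge p c
    have h2 := par_N_ge p c
    omega

theorem par_M_le_N (c : ℕ) : p.M c ≤ p.N c := by
  rcases c with _ | c
  · rw [p.hM0, p.hN0]
  · rw [p.hN]
    have h2 := par_N_ge p c
    calc p.M (c + 1) = 1 * p.M (c + 1) := (one_mul _).symm
      _ ≤ 4 * p.N c * p.M (c + 1) := Nat.mul_le_mul_right _ (by omega)

theorem par_N_mono : StrictMono p.N := by
  refine strictMono_nat_of_lt_succ fun c => ?_
  have h1 := par_M_succ_ge p c
  have h2 := par_N_ge p c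
  have h3 := par_M_le_N p (c + 1)
  omega

theorem par_M_mono : StrictMono p.M := by
  refine strictMono_nat_of_lt_succ fun c => ?_
  have h1 := par_M_succ_ge p c
  have h2 := par_N_ge p c
  have h3 := par_M_le_N p c
  omega

theorem par_m_pos (c : ℕ) : 0 < p.m c := by
  unfold Par.m
  positivity

theorem par_m_ge (c : ℕ) : (2 : ℝ) ^ 100 ≤ p.m c := by
  unfold Par.m
  exact pow_le_pow_right₀ one_le_two (par_M_ge p c)

theorem par_n_pos (c : ℕ) : 0 < p.n c := by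
  unfold Par.n
  exact Nat.two_pow_pos _

theorem par_m_le_n (c : ℕ) : p.m c ≤ (p.n c : ℝ) := by
  unfold Par.m Par.n
  rw [Nat.cast_pow, Nat.cast_two]
  exact pow_le_pow_right₀ one_le_two (par_M_le_N p c)

theorem par_m_mono {c c' : ℕ} (h : c ≤ c') : p.m c ≤ p.m c' := by
  unfold Par.m
  exact pow_le_pow_right₀ one_le_two ((par_M_mono p).monotone h)

theorem par_n_mono {c c' : ℕ} (h : c ≤ c') : p.n c ≤ p.n c' := by
  unfold Par.n
  exact Nat.pow_le_pow_right two_pos ((par_N_mono p).monotone h)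

theorem par_n_pow_le (c : ℕ) : (p.n c : ℝ) ^ 20 ≤ p.m (c + 1) := by
  unfold Par.m Par.n
  rw [Nat.cast_pow, Nat.cast_two, ← pow_mul]
  refine pow_le_pow_right₀ one_le_two ?_
  have h1 := par_M_succ_ge p c
  omega

theorem par_m_pow_le (c : ℕ) : (p.m (c + 1)) ^ 400 ≤ (p.n (c + 1) : ℝ) := by
  unfold Par.m Par.n
  rw [Nat.cast_pow, Nat.cast_two, ← pow_mul]
  refine pow_le_pow_right₀ one_le_two ?_
  rw [p.hN]
  have h1 := par_N_ge p c
  calc p.M (c + 1) * 400 = 400 * p.M (c + 1) := mul_comm _ _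
    _ ≤ 4 * p.N c * p.M (c + 1) := Nat.mul_le_mul_right _ (by omega)

theorem par_sum_tail (C : Finset ℕ) (c0 : ℕ) (hC : ∀ c ∈ C, c0 ≤ c) :
    ∑ c ∈ C, 1 / p.m c ≤ 2 / p.m c0 := by
  have hmono : ∀ i, p.M c0 + i ≤ p.M (c0 + i) := by
    intro i
    induction i with
    | zero => simp
    | succ i ih =>
      have h1 : p.M (c0 + i) < p.M (c0 + (i + 1)) := par_M_mono p (by omega)
      omega
  have hterm : ∀ i, 1 / p.m (c0 + i) ≤ 1 / p.m c0 * (1 / 2) ^ i := by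
    intro i
    have h1 : p.m c0 * 2 ^ i ≤ p.m (c0 + i) := by
      unfold Par.m
      rw [← pow_add]
      exact pow_le_pow_right₀ one_le_two (hmono i)
    have h2 : 0 < p.m c0 * 2 ^ i := mul_pos (par_m_pos p c0) (by positivity)
    calc 1 / p.m (c0 + i) ≤ 1 / (p.m c0 * 2 ^ i) := one_div_le_one_div_of_le h2 h1
      _ = 1 / p.m c0 * (1 / 2) ^ i := by
        rw [one_div_pow, one_div_mul_one_div]
  have hsub : C ⊆ (Finset.range (C.sup id + 1)).image (fun i => c0 + i) := by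
    intro c hc
    rw [Finset.mem_image]
    refine ⟨c - c0, ?_, ?_⟩
    · have h1 : c ≤ C.sup id := Finset.le_sup (f := id) hc
      rw [Finset.mem_range]
      omega
    · have := hC c hc
      omega
  have hm0 := par_m_pos p c0
  calc ∑ c ∈ C, 1 / p.m c
      ≤ ∑ c ∈ (Finset.range (C.sup id + 1)).image (fun i => c0 + i), 1 / p.m c :=
        Finset.sum_le_sum_of_subset_of_nonneg hsub fun c _ _ => by
          have := par_m_pos p c
          positivity
    _ = ∑ i ∈ Finset.range (C.sup id + 1), 1 / p.m (c0 + i) :=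
        Finset.sum_image fun i _ j _ h => by simpa using h
    _ ≤ ∑ i ∈ Finset.range (C.sup id + 1), 1 / p.m c0 * (1 / 2) ^ i :=
        Finset.sum_le_sum fun i _ => hterm i
    _ = 1 / p.m c0 * ∑ i ∈ Finset.range (C.sup id + 1), (1 / 2 : ℝ) ^ i := by
        rw [Finset.mul_sum]
    _ ≤ 1 / p.m c0 * 2 := by
        refine mul_le_mul_of_nonneg_left ?_ (by positivity)
        have h1 := geom_sum_eq (show (1 / 2 : ℝ) ≠ 1 by norm_num) (C.sup id + 1)
        rw [h1]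
        have h2 : (0 : ℝ) ≤ (1 / 2) ^ (C.sup id + 1) := by positivity
        rw [div_le_iff_of_neg (by norm_num)]
        linarith
    _ = 2 / p.m c0 := by ring

theorem par_sum_inv (C : Finset ℕ) : ∑ c ∈ C, 1 / p.m c ≤ 1 / 20 := by
  refine (par_sum_tail p C 0 fun c _ => Nat.zero_le c).trans ?_
  rw [div_le_div_iff₀ (par_m_pos p 0) (by norm_num)]
  have h1 := par_m_ge p 0
  have h2 : (40 : ℝ) ≤ 2 ^ 100 := by norm_num
  linarith

theorem par_pow {c c' : ℕ} (h : c' ≤ c) : (p.n c' : ℝ) ^ (1 / (p.N c : ℝ)) ≤ 2 := by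
  have hN := par_N_ge p c
  have hN0 : (0 : ℝ) < p.N c := by
    have : 0 < p.N c := by omega
    exact_mod_cast this
  have hle : (p.N c' : ℝ) ≤ p.N c := by exact_mod_cast (par_N_mono p).monotone h
  unfold Par.n
  rw [Nat.cast_pow, Nat.cast_two, ← Real.rpow_natCast, ← Real.rpow_mul zero_le_two, mul_one_div]
  calc (2 : ℝ) ^ ((p.N c' : ℝ) / p.N c) ≤ 2 ^ (1 : ℝ) :=
        Real.rpow_le_rpow_of_exponent_le one_le_two ((div_le_one hN0).2 hle)
    _ = 2 := Real.rpow_one 2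

theorem par_pow_succ (c : ℕ) : (p.n (c + 1) : ℝ) ^ (1 / (p.N c : ℝ)) = (p.m (c + 1)) ^ 4 := by
  have hN := par_N_ge p c
  have hN0 : (p.N c : ℝ) ≠ 0 := by
    have : p.N c ≠ 0 := by omega
    exact_mod_cast this
  unfold Par.n Par.m
  rw [Nat.cast_pow, Nat.cast_two, ← Real.rpow_natCast, ← Real.rpow_mul zero_le_two, p.hN, ← pow_mul,
    ← Real.rpow_natCast 2 (p.M (c + 1) * 4)]
  congr 1
  push_cast
  field_simp

end Pool.Agent.HB
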